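import Pool.Agent.Helper79.SV.V5
import Pool.Agent.Helper79.SV.V7
import Pool.Agent.Helper79.SV.V8

set_option autoImplicit false

/-!
# SB-G-02: pairs over `K`

`L` = fixed field of `σ, τ` in `Ω` (an `IntermediateField K Ω`), `σ', τ' ∈ Gal(Ω/L)` the same maps.  `TPair k ℓ σ' τ'` and
`WeightProp k ℓ τ'` follow from `KPair` and `hW` (translate elements of `L` to elements of `Ω`; `x : L` transcendental over
`k` iff its image is; constants of `L` are elements of `Ω` algebraic over `k` fixed by `σ`).  `exists_pair_ring` gives `O`, `exists_inv_ring`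
gives `V` (`x ∈ V ↔ IsIntegral O x`), `pair_decomp` gives `c', t'`, `pair_dichotomy` the alternative (`hk`: an element algebraic over `k` is
algebraic over `consts`, integral over `O` because `k ⊆ O`; `hinv`: automorphisms over `L` preserve integrality over `O`).
Restrict scalars to `K`.  `hc`: for `M / K` finite, `M' = L(M)` is finite over `L` (adjoin the generators).
-/

open IntermediateField

namespace Pool.Agent.SB

/-- a pro-`ℓ` tame pair in `Gal(Ω/K)` -/
structure KPair (k : Type) [Field k] {K Ω : Type} [Field K] [Field Ω] [Algebra K Ω]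
    [Algebra k Ω] (ℓ : ℕ) (σ τ : Ω ≃ₐ[K] Ω) : Prop where
  pσ : ∀ x : Ω, ∃ n : ℕ, (σ ^ (ℓ ^ n)) x = x
  pτ : ∀ x : Ω, ∃ n : ℕ, (τ ^ (ℓ ^ n)) x = x
  rel : ∀ x : Ω, ∃ N : ℕ, ∀ q : ℕ, (∀ ζ : Ω, ζ ^ (ℓ ^ N) = 1 → σ ζ = ζ ^ q) →
    (σ * τ * σ⁻¹) x = (τ ^ q) x
  mu : ∀ ζ : Ω, ζ ^ ℓ = 1 → σ ζ = ζ
  bar : ∀ a : Ω, IsAlgebraic k a → τ a = a

/-- the weight property of a pair over `K` -/
def KWeight (k : Type) [Field k] {K Ω : Type} [Field K] [Field Ω] [Algebra K Ω]
    [Algebra k Ω] (ℓ : ℕ) (σ τ : Ω ≃ₐ[K] Ω) : Prop :=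
  ∀ (x : Ω) (c : Fin 3 → Ω) (y : Ω), Transcendental k x → σ x = x → τ x = x →
    (∀ i, IsAlgebraic k (c i)) → (∀ i, σ (c i) = c i) → Function.Injective c →
    y ^ ℓ * (x - c 1) = (x - c 0) * (x - c 2) → τ y = y →
    ∀ (i : Fin 3) (ω : Ω), ω ^ ℓ = x - c i → τ ω = ω

private theorem v9a_fix {K Ω : Type} [Field K] [Field Ω] [Algebra K Ω] (σ τ : Ω ≃ₐ[K] Ω) (x : Ω) :
    x ∈ IntermediateField.fixedField (Subgroup.closure {σ, τ}) ↔ σ x = x ∧ τ x = x := by
  rw [IntermediateField.mem_fixedField_iff]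
  constructor
  · intro h
    exact ⟨h σ (Subgroup.subset_closure (Or.inl rfl)), h τ (Subgroup.subset_closure (Or.inr rfl))⟩
  · rintro ⟨h1, h2⟩ g hg
    induction hg using Subgroup.closure_induction with
    | mem g hg =>
      rcases hg with hg | hg
      · rw [hg]
        exact h1
      · rw [Set.mem_singleton_iff.1 hg]
        exact h2
    | one => rfl
    | mul g h _ _ hg hh =>
      change g (h x) = x
      rw [hh, hg]
    | inv g _ hg =>
      change g.symm x = x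
      rw [AlgEquiv.symm_apply_eq]
      exact hg.symm

/-- An automorphism over `L`. -/
private noncomputable def v9a_up {K Ω : Type} [Field K] [Field Ω] [Algebra K Ω] (L : IntermediateField K Ω)
    (g : Ω ≃ₐ[K] Ω) (h : ∀ x ∈ L, g x = x) : Ω ≃ₐ[L] Ω :=
  AlgEquiv.ofRingEquiv (f := g.toRingEquiv) fun x => h x x.2

private theorem v9a_up_apply {K Ω : Type} [Field K] [Field Ω] [Algebra K Ω] (L : IntermediateField K Ω)
    (g : Ω ≃ₐ[K] Ω) (h : ∀ x ∈ L, g x = x) (x : Ω) : v9a_up L g h x = g x := rfl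

private theorem v9a_pow {K Ω : Type} [Field K] [Field Ω] [Algebra K Ω] (L : IntermediateField K Ω)
    (g : Ω ≃ₐ[K] Ω) (h : ∀ x ∈ L, g x = x) (n : ℕ) (x : Ω) : (v9a_up L g h ^ n) x = (g ^ n) x := by
  induction n generalizing x with
  | zero => rfl
  | succ n ih =>
    rw [pow_succ, pow_succ]
    exact ih (g x)

private theorem v9a_inv {K Ω : Type} [Field K] [Field Ω] [Algebra K Ω] (L : IntermediateField K Ω)
    (g : Ω ≃ₐ[K] Ω) (h : ∀ x ∈ L, g x = x) (x : Ω) : (v9a_up L g h)⁻¹ x = g⁻¹ x := by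
  change (v9a_up L g h).symm x = g⁻¹ x
  rw [AlgEquiv.symm_apply_eq, v9a_up_apply]
  exact (g.apply_symm_apply x).symm

/-- A finite extension of `K` inside a finite extension of `L`. -/
private theorem v9a_fin {K Ω : Type} [Field K] [Field Ω] [Algebra K Ω] [Algebra.IsAlgebraic K Ω]
    (L M : IntermediateField K Ω) [FiniteDimensional K M] :
    ∃ M' : IntermediateField L Ω, FiniteDimensional L M' ∧ ∀ x ∈ M, x ∈ M' := by
  let b := Module.finBasis K M
  refine ⟨IntermediateField.adjoin L (Set.range fun i => ((b i : M) : Ω)), ?_, ?_⟩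
  · have : Finite (Set.range fun i => ((b i : M) : Ω)) := Set.finite_range _
    exact IntermediateField.finiteDimensional_adjoin (K := L) fun x _ =>
      (Algebra.IsIntegral.isIntegral (R := K) x).tower_top
  · intro x hx
    have h1 := congrArg Subtype.val (b.sum_repr ⟨x, hx⟩)
    change ((∑ i, b.repr ⟨x, hx⟩ i • b i : M) : Ω) = x at h1
    rw [← h1, AddSubmonoidClass.coe_finsetSum]
    refine sum_mem fun i _ => ?_
    have h2 : ((b.repr ⟨x, hx⟩ i • b i : M) : Ω) =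
        algebraMap L Ω (algebraMap K L (b.repr ⟨x, hx⟩ i)) * ((b i : M) : Ω) := by
      rw [← IsScalarTower.algebraMap_apply K L Ω, ← Algebra.smul_def]
      rfl
    rw [h2]
    exact mul_mem (IntermediateField.algebraMap_mem _ _) (IntermediateField.subset_adjoin _ _ ⟨i, rfl⟩)

theorem kpair_decomp (k : Type) [Field k] [CharZero k] {K Ω : Type} [Field K] [Field Ω]
    [Algebra k K] [Algebra K Ω] [Algebra k Ω] [IsScalarTower k K Ω] [IsAlgClosed Ω]
    [Algebra.IsAlgebraic K Ω] {ℓ : ℕ} (hℓ : ℓ.Prime) {σ τ : Ω ≃ₐ[K] Ω} (P : KPair k ℓ σ τ)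
    (hW : KWeight k ℓ σ τ) :
    ∃ (V : ValuationSubring Ω) (c t : Ω ≃ₐ[K] Ω), (∀ a : Ω, IsAlgebraic k a → a ∈ V) ∧
      (∀ x, σ x ∈ V ↔ x ∈ V) ∧ (∀ x, τ x ∈ V ↔ x ∈ V) ∧ (∀ x, t x ∈ V ↔ x ∈ V) ∧
      τ = c * t ∧
      (∀ M : IntermediateField K Ω, FiniteDimensional K M →
        ∃ m : ℕ, ∀ x ∈ M, c x = (σ ^ m) x) ∧
      (∀ x ∈ V, V.valuation (t x - x) < 1) ∧
      ((∀ x ∈ V, V.valuation (τ x - x) < 1) ∨
        (∀ (N : ℕ) (ζ : Ω), ζ ^ (ℓ ^ N) = 1 → σ ζ = ζ)) := by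
  obtain ⟨L, hL⟩ : ∃ L : IntermediateField K Ω, ∀ x, x ∈ L ↔ σ x = x ∧ τ x = x :=
    ⟨_, v9a_fix σ τ⟩
  have htow : IsScalarTower k L Ω := IsScalarTower.of_algebraMap_eq fun x => rfl
  have halg : Algebra.IsAlgebraic L Ω := Algebra.IsAlgebraic.tower_top (K := K) L
  have hσL : ∀ x ∈ L, σ x = x := fun x hx => ((hL x).1 hx).1
  have hτL : ∀ x ∈ L, τ x = x := fun x hx => ((hL x).1 hx).2
  have hP : TPair k ℓ (v9a_up L σ hσL) (v9a_up L τ hτL) := by
    refine ⟨?_, ?_, ?_, ?_, ?_, ?_⟩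
    · intro x h1 h2
      exact ⟨⟨x, (hL x).2 ⟨h1, h2⟩⟩, rfl⟩
    · intro x
      obtain ⟨n, hn⟩ := P.pσ x
      exact ⟨n, by rw [v9a_pow]; exact hn⟩
    · intro x
      obtain ⟨n, hn⟩ := P.pτ x
      exact ⟨n, by rw [v9a_pow]; exact hn⟩
    · intro x
      obtain ⟨N, hN⟩ := P.rel x
      refine ⟨N, fun q hq => ?_⟩
      have h1 := hN q hq
      rw [v9a_pow, ← h1]
      change σ (τ ((v9a_up L σ hσL)⁻¹ x)) = σ (τ (σ⁻¹ x))
      rw [v9a_inv]
    · exact P.mu
    · exact P.bar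
  have hWP : WeightProp k ℓ (v9a_up L τ hτL) := by
    intro x c y hx hc hinj hy hτy i ω hω
    have hinjL : Function.Injective (algebraMap L Ω) := (algebraMap L Ω).injective
    have hsub : ∀ a b : L, algebraMap L Ω (a - b) = (a : Ω) - (b : Ω) := fun a b => rfl
    refine hW (x : Ω) (fun i => (c i : Ω)) y ?_ (hσL _ x.2) (hτL _ x.2) ?_ ?_ ?_ ?_ hτy i ω ?_
    · exact (transcendental_algebraMap_iff hinjL).2 hx
    · exact fun i => (isAlgebraic_algebraMap_iff hinjL).2 (hc i)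
    · exact fun i => hσL _ (c i).2
    · exact fun i j hij => hinj (Subtype.ext hij)
    · rw [map_mul] at hy
      exact hy
    · exact hω
  obtain ⟨O, hO1, hO2, hO3⟩ := exists_pair_ring k hℓ hP hWP
  obtain ⟨V, hV⟩ := exists_inv_ring k hℓ hP O hO3
  obtain ⟨c, t, hct, hc, ht⟩ := pair_decomp k hℓ hP O hO1 hO2 V hV
  have hk : ∀ a : Ω, IsAlgebraic k a → a ∈ V := by
    intro a ha
    rw [hV]
    obtain ⟨p, hp, hpa⟩ := ha.isIntegral
    have hkO : ∀ x : k, algebraMap k L x ∈ O := fun x => hO1 _ (isAlgebraic_algebraMap x)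
    let φ : k →+* O := (algebraMap k L).codRestrict O.toSubring hkO
    refine ⟨p.map φ, hp.map φ, ?_⟩
    rw [Polynomial.eval₂_map]
    have h1 : (algebraMap O Ω).comp φ = algebraMap k Ω := by
      ext x
      rfl
    rw [h1]
    exact hpa
  have hinv : ∀ (g : Ω ≃ₐ[L] Ω) (x : Ω), g x ∈ V ↔ x ∈ V := by
    intro g x
    rw [hV, hV]
    have h2 : ∀ (g : Ω ≃ₐ[L] Ω) (x : Ω), IsIntegral O x → IsIntegral O (g x) := by
      intro g x hx
      obtain ⟨p, hp, hpx⟩ := hx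
      refine ⟨p, hp, ?_⟩
      have h3 : (g : Ω →+* Ω).comp (algebraMap O Ω) = algebraMap O Ω := by
        ext y
        exact g.commutes (y : L)
      have h4 := congrArg (g : Ω →+* Ω) hpx
      rw [map_zero, Polynomial.hom_eval₂, h3] at h4
      exact h4
    constructor
    · intro h3
      have h4 := h2 g.symm (g x) h3
      rwa [AlgEquiv.symm_apply_apply] at h4
    · exact h2 g x
  have hdich := pair_dichotomy k hℓ hP V hk hinv c t hct hc ht
  refine ⟨V, c.restrictScalars K, t.restrictScalars K, hk, ?_, ?_, ?_, ?_, ?_, ht, hdich⟩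
  · exact fun x => hinv (v9a_up L σ hσL) x
  · exact fun x => hinv (v9a_up L τ hτL) x
  · exact fun x => hinv t x
  · ext x
    have h1 := congrArg (fun g : Ω ≃ₐ[L] Ω => g x) hct
    exact h1
  · intro M hM
    obtain ⟨M', hM', hle⟩ := v9a_fin L M
    obtain ⟨m, hm⟩ := hc M' hM'
    refine ⟨m, fun x hx => ?_⟩
    have h1 := hm x (hle x hx)
    rw [v9a_pow] at h1
    exact h1

end Pool.Agent.SB
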