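import Mathlib

set_option autoImplicit false

/-!
# SB-G-03: `ℓ`-parts of a pair of lifts (finite group theory)

`X` finite, `s t s⁻¹ = t ^ q`, `q ≡ 1 mod ℓ`.  Write `Nat.card X = ℓ^N m'` with `ℓ ∤ m'`.  Choose `e` with `e ≡ 1 mod ℓ^N`, `e ≡ 0 mod m'`.
`a = s ^ e`, `b = t ^ e`: of order dividing `ℓ^N`.  `a b a⁻¹ = b ^ (q ^ e)` (iterate `s t s⁻¹ = t^q`, and `b` is a power of `t`).
`q ^ e ≡ q mod ℓ^N`: `e = 1 + ℓ^N f`, `q^(ℓ^N) ≡ 1 mod ℓ^(N+1)` as `q ≡ 1 mod ℓ`.  So `a b a⁻¹ = b ^ q`.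
`pr a = (pr s)^e = pr s` if `pr s` has `ℓ`-power order (dividing `ℓ^N`, as the order of `pr s` divides the order of `s`).
-/

namespace Pool.Agent.SB

private theorem v9b_pow_eq {G : Type} [Group G] {g : G} {M a b : ℕ} (hg : g ^ M = 1)
    (h : a ≡ b [MOD M]) : g ^ a = g ^ b := by
  rw [pow_eq_pow_iff_modEq]
  exact h.of_dvd (orderOf_dvd_of_pow_eq_one hg)

private theorem v9b_pr {G Q : Type} [Group G] [Finite G] [Group Q] (pr : G →* Q) {ℓ N m e : ℕ}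
    (hℓ : ℓ.Prime) (hn : Nat.card G = ℓ ^ N * m) (hm : ¬ ℓ ∣ m) (he : e ≡ 1 [MOD ℓ ^ N]) (s : G)
    (hs : ∃ n, pr s ^ (ℓ ^ n) = 1) : pr (s ^ e) = pr s := by
  obtain ⟨n, hn'⟩ := hs
  have h1 : orderOf (pr s) ∣ ℓ ^ n := orderOf_dvd_of_pow_eq_one hn'
  have h2 : orderOf (pr s) ∣ ℓ ^ N * m := by
    apply orderOf_dvd_of_pow_eq_one
    rw [← hn, ← map_pow, pow_card_eq_one', map_one]
  have hc : Nat.Coprime (orderOf (pr s)) m :=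
    Nat.Coprime.coprime_dvd_left h1 (Nat.Coprime.pow_left n ((Nat.Prime.coprime_iff_not_dvd hℓ).2 hm))
  have h3 : orderOf (pr s) ∣ ℓ ^ N := hc.dvd_of_dvd_mul_right h2
  rw [map_pow]
  have h4 := v9b_pow_eq (orderOf_dvd_iff_pow_eq_one.1 h3) he
  rw [h4, pow_one]

theorem ell_parts {X Q : Type} [Group X] [Finite X] [Group Q] (pr : X →* Q) {ℓ : ℕ}
    (hℓ : ℓ.Prime) (s t : X) (q : ℕ) (hq : q ≡ 1 [MOD ℓ]) (hst : s * t * s⁻¹ = t ^ q)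
    (hs : ∃ n, pr s ^ (ℓ ^ n) = 1) (ht : ∃ n, pr t ^ (ℓ ^ n) = 1) :
    ∃ (a b : X) (N : ℕ), pr a = pr s ∧ pr b = pr t ∧ a ^ (ℓ ^ N) = 1 ∧ b ^ (ℓ ^ N) = 1 ∧
      a * b * a⁻¹ = b ^ q := by
  obtain ⟨N, m, hm, hn⟩ := Nat.exists_eq_pow_mul_and_not_dvd (n := Nat.card X) Nat.card_pos.ne' ℓ
    hℓ.ne_one
  have hcop : Nat.Coprime (ℓ ^ N) m :=
    Nat.Coprime.pow_left N ((Nat.Prime.coprime_iff_not_dvd hℓ).2 hm)
  obtain ⟨e₀, he1, he2⟩ := Nat.chineseRemainder hcop 1 0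
  obtain ⟨e, he⟩ : ∃ e, e = e₀ + ℓ ^ N * m := ⟨_, rfl⟩
  have hE1 : e ≡ 1 [MOD ℓ ^ N] := by
    rw [he]
    have h1 : ℓ ^ N * m ≡ 0 [MOD ℓ ^ N] := (Nat.modEq_zero_iff_dvd).2 (dvd_mul_right _ _)
    simpa using he1.add h1
  have hE2 : m ∣ e := by
    rw [he]
    exact dvd_add ((Nat.modEq_zero_iff_dvd).1 he2) (dvd_mul_left _ _)
  have hcp : 0 < ℓ ^ N * m := by
    rw [← hn]
    exact Nat.card_pos
  have hepos : 1 ≤ e := by omega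
  have hone : ∀ x : X, (x ^ e) ^ (ℓ ^ N) = 1 := by
    intro x
    rw [← pow_mul]
    obtain ⟨f, hf⟩ := hE2
    have h2 : e * ℓ ^ N = Nat.card X * f := by
      rw [hn, hf]
      ring
    rw [h2, pow_mul, pow_card_eq_one', one_pow]
  -- conjugation by powers of `s`
  have hconj : ∀ k j : ℕ, s ^ k * t ^ j * (s ^ k)⁻¹ = t ^ (j * q ^ k) := by
    intro k
    induction k with
    | zero => intro j; simp
    | succ k ih =>
      intro j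
      have h3 : s ^ (k + 1) * t ^ j * (s ^ (k + 1))⁻¹ = s * (s ^ k * t ^ j * (s ^ k)⁻¹) * s⁻¹ := by
        rw [pow_succ']
        group
      have h4 : ∀ i : ℕ, s * t ^ i * s⁻¹ = t ^ (q * i) := by
        intro i
        rw [pow_mul, ← hst, conj_pow]
      rw [h3, ih, h4]
      congr 1
      ring
  refine ⟨s ^ e, t ^ e, N, v9b_pr pr hℓ hn hm hE1 s hs, v9b_pr pr hℓ hn hm hE1 t ht, hone s,
    hone t, ?_⟩
  have h5 : s ^ e * t ^ e * (s ^ e)⁻¹ = (t ^ e) ^ (q ^ e) := by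
    rw [hconj, pow_mul]
  rw [h5]
  refine v9b_pow_eq (hone t) ?_
  -- `q ^ e ≡ q`
  obtain ⟨f, hf⟩ : ∃ f, e = 1 + ℓ ^ N * f := by
    have h6 : (ℓ ^ N) ∣ e - 1 := (Nat.modEq_iff_dvd' hepos).1 hE1.symm
    obtain ⟨f, hf⟩ := h6
    exact ⟨f, by omega⟩
  have h7 : q ^ (ℓ ^ N) ≡ 1 [MOD ℓ ^ N] := by
    have h8 : ((ℓ : ℕ) : ℤ) ∣ (q : ℤ) - 1 := by
      have := (Nat.modEq_iff_dvd.1 hq.symm)
      simpa using this
    have h9 := dvd_sub_pow_of_dvd_sub h8 N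
    rw [one_pow] at h9
    have h10 : ((ℓ ^ N : ℕ) : ℤ) ∣ ((q ^ (ℓ ^ N) : ℕ) : ℤ) - ((1 : ℕ) : ℤ) := by
      refine dvd_trans ?_ (by push_cast; exact h9)
      push_cast
      exact pow_dvd_pow _ (Nat.le_succ N)
    exact (Nat.modEq_iff_dvd.2 h10).symm
  rw [hf, pow_add, pow_one, pow_mul]
  simpa using (h7.pow f).mul_left q

end Pool.Agent.SB
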