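import Pool.Agent.Helper79.SG.V9a
import Pool.Agent.Helper79.SG.V9b
import Pool.Agent.Helper1.SR.Form
import Pool.Agent.Helper1.SR.FinG

set_option autoImplicit false

/-!
# SB-G-04: lifts of a pro-`ℓ` tame pair to `Ghat D`

`hR` is what `ob_of_valuation` gives for the class of `A`.  Take `V, c, t` from `kpair_decomp`.
CHOICE OF `q`: for given `N` there is `q ≥ 1` with `σ ζ = ζ ^ q` for all `ζ ^ (ℓ ^ N) = 1` and for all `ζ ^ n = 1` (`σ` acts on the cyclic group of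
roots of unity of order `ℓ^N n` by a power).  `q ≡ 1 mod ℓ` by `P.mu` if `N ≥ 1`.
CASE 1: `τ` is trivial on the residue field.  `hR` for `(σ, τ)`: `E1, n`.  Choose `N` so large that `P.rel` holds on a basis of `E1`
(so on `E1`: both sides are ring homs; finitely many generators), and that `ℓ^N` kills the `ℓ`-part of `Ghat D`: `ell_parts` gives `a, b` with
`a b a⁻¹ = b^q`.  For another `q'` with `σ ζ = ζ^(q')` on `ℓ^N'`-th roots of unity, `N' ≥ N` large: `q' ≡ q mod ℓ^N'`, so `b^(q') = b^q` (`b` of order dividing `ℓ^N'`).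
CASE 2: `σ` fixes all `ℓ`-power roots of unity.  Then `P.rel` with `q = 1`: `σ τ σ⁻¹ = τ`.  `c` commutes with `σ` and `τ` (locally a power of `σ`; for `x ∈ Ω`
take `M` finite over `K` containing `x, σ x, τ x`), `t = c⁻¹ τ` commutes with `σ`, and `t` has `ℓ`-power order on every element.  Apply `hR` to
`(σ, t)`: for `q ≡ 1` modulo a large power of `ℓ` we have `(σ t σ⁻¹) x = t x = t^q x` on `E1`, so `OB D σ|E t|E q`, and `ell_parts` gives commuting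
`a, b0` (`b0^q = b0` for `q ≡ 1 mod ℓ^N`) above `σ|E, t|E`.  Let `m` with `c = σ^m` on `D.E` and `b = a^m b0`: above `c t = τ`, commutes
with `a`, of `ℓ`-power order; `a b a⁻¹ = b = b^q'` for all `q' ≡ 1 mod ℓ^N`.
-/

open IntermediateField

namespace Pool.Agent.SB

open Pool.Agent.Helper8.BR Pool.Agent.Helper1.SR

private theorem v9_prim {Ω : Type} [Field Ω] [CharZero Ω] [IsAlgClosed Ω] (n : ℕ) (hn : n ≠ 0) :
    ∃ ζ : Ω, IsPrimitiveRoot ζ n := by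
  have : NeZero (n : Ω) := ⟨Nat.cast_ne_zero.2 hn⟩
  obtain ⟨ζ, hζ⟩ := IsAlgClosed.exists_root (Polynomial.cyclotomic n Ω)
    (Polynomial.degree_cyclotomic_pos n Ω (Nat.pos_of_ne_zero hn)).ne'
  exact ⟨ζ, Polynomial.isRoot_cyclotomic_iff.1 hζ⟩

private theorem v9_exists_q {K Ω : Type} [Field K] [CharZero K] [Field Ω] [Algebra K Ω]
    [IsAlgClosed Ω] (σ : Ω ≃ₐ[K] Ω) (n : ℕ) (hn : n ≠ 0) :
    ∃ q : ℕ, ∀ ζ : Ω, ζ ^ n = 1 → σ ζ = ζ ^ q := by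
  have : CharZero Ω := charZero_of_injective_algebraMap (algebraMap K Ω).injective
  have : NeZero n := ⟨hn⟩
  obtain ⟨ζ, hζ⟩ := v9_prim (Ω := Ω) n hn
  have h1 : (σ ζ) ^ n = 1 := by rw [← map_pow, hζ.pow_eq_one, map_one]
  obtain ⟨q, -, hq⟩ := hζ.eq_pow_of_pow_eq_one h1
  refine ⟨q, fun ξ hξ => ?_⟩
  obtain ⟨i, -, hi⟩ := hζ.eq_pow_of_pow_eq_one hξ
  rw [← hi, map_pow, ← hq, ← pow_mul, ← pow_mul, mul_comm]

private theorem v9_cong {K Ω : Type} [Field K] [CharZero K] [Field Ω] [Algebra K Ω]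
    [IsAlgClosed Ω] {σ : Ω ≃ₐ[K] Ω} {n q q' : ℕ} (hn : n ≠ 0)
    (h : ∀ ζ : Ω, ζ ^ n = 1 → σ ζ = ζ ^ q) (h' : ∀ ζ : Ω, ζ ^ n = 1 → σ ζ = ζ ^ q') :
    q ≡ q' [MOD n] := by
  have : CharZero Ω := charZero_of_injective_algebraMap (algebraMap K Ω).injective
  obtain ⟨ζ, hζ⟩ := v9_prim (Ω := Ω) n hn
  have h1 : ζ ^ q = ζ ^ q' := by rw [← h ζ hζ.pow_eq_one, ← h' ζ hζ.pow_eq_one]
  rw [hζ.eq_orderOf]
  have hu : IsUnit ζ := hζ.isUnit hn
  obtain ⟨u, rfl⟩ := hu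
  rw [← Units.val_pow_eq_pow_val, ← Units.val_pow_eq_pow_val] at h1
  have h2 := pow_eq_pow_iff_modEq.1 (Units.ext h1)
  rwa [orderOf_units]

section

variable {K Ω : Type} [Field K] [Field Ω] [Algebra K Ω]

private theorem v9_agree {M : IntermediateField K Ω} [FiniteDimensional K M]
    {g h : Ω ≃ₐ[K] Ω} (H : ∀ i, g ((Module.finBasis K M i : M) : Ω) =
      h ((Module.finBasis K M i : M) : Ω)) : ∀ x ∈ M, g x = h x := by
  intro x hx
  have h1 : (g : Ω →ₐ[K] Ω).toLinearMap.comp M.val.toLinearMap =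
      (h : Ω →ₐ[K] Ω).toLinearMap.comp M.val.toLinearMap := by
    apply (Module.finBasis K M).ext
    intro i
    exact H i
  exact LinearMap.congr_fun h1 (⟨x, hx⟩ : M)

private theorem v9_fix_pow {g : Ω ≃ₐ[K] Ω} {x : Ω} (h : g x = x) (k : ℕ) : (g ^ k) x = x := by
  induction k with
  | zero => rfl
  | succ k ih =>
    rw [pow_succ]
    change (g ^ k) (g x) = x
    rw [h, ih]

private theorem v9_fix_mul {g : Ω ≃ₐ[K] Ω} {x : Ω} {m : ℕ} (h : (g ^ m) x = x) (k : ℕ) :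
    (g ^ (m * k)) x = x := by
  rw [pow_mul]
  exact v9_fix_pow h k

private theorem v9_fix_dvd {g : Ω ≃ₐ[K] Ω} {x : Ω} {m m' : ℕ} (h : (g ^ m) x = x)
    (hd : m ∣ m') : (g ^ m') x = x := by
  obtain ⟨k, rfl⟩ := hd
  exact v9_fix_mul h k

private theorem v9_fix_mod {g : Ω ≃ₐ[K] Ω} {x : Ω} {m q q' : ℕ} (h : (g ^ m) x = x)
    (hq : q ≡ q' [MOD m]) : (g ^ q) x = (g ^ q') x := by
  have key : ∀ q : ℕ, (g ^ q) x = (g ^ (q % m)) x := by
    intro q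
    conv_lhs => rw [← Nat.mod_add_div q m, pow_add]
    change (g ^ (q % m)) ((g ^ (m * (q / m))) x) = _
    rw [v9_fix_mul h]
  rw [key q, key q', show q % m = q' % m from hq]

private theorem v9_unif {ℓ : ℕ} {g : Ω ≃ₐ[K] Ω} (hg : ∀ x : Ω, ∃ n : ℕ, (g ^ (ℓ ^ n)) x = x)
    (M : IntermediateField K Ω) [FiniteDimensional K M] :
    ∃ n : ℕ, ∀ x ∈ M, (g ^ (ℓ ^ n)) x = x := by
  classical
  choose f hf using fun i => hg ((Module.finBasis K M i : M) : Ω)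
  refine ⟨Finset.univ.sup f, fun x hx => ?_⟩
  refine v9_agree (M := M) (g := g ^ (ℓ ^ (Finset.univ.sup f))) (h := 1) (fun i => ?_) x hx
  exact v9_fix_dvd (hf i) (pow_dvd_pow ℓ (Finset.le_sup (Finset.mem_univ i)))

private theorem v9_comm_apply {g h : Ω ≃ₐ[K] Ω} (H : g * h = h * g) (x : Ω) :
    g (h x) = h (g x) := DFunLike.congr_fun H x

private theorem v9_pow_comm {g h : Ω ≃ₐ[K] Ω} (H : g * h = h * g) (k : ℕ) (x : Ω) :
    g ((h ^ k) x) = (h ^ k) (g x) :=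
  v9_comm_apply (Commute.pow_right (show Commute g h from H) k) x

end

private theorem v9_kill {X : Type} [Group X] [Finite X] {ℓ : ℕ} (hℓ : ℓ.Prime) {b : X} {N : ℕ}
    (hb : b ^ (ℓ ^ N) = 1) {v : ℕ} (hv : (Nat.card X).factorization ℓ ≤ v) : b ^ (ℓ ^ v) = 1 := by
  obtain ⟨j, -, hj⟩ := (Nat.dvd_prime_pow hℓ).1 (orderOf_dvd_of_pow_eq_one hb)
  have h1 : ℓ ^ j ∣ Nat.card X := hj ▸ orderOf_dvd_natCard b
  have h2 := (hℓ.pow_dvd_iff_le_factorization Nat.card_pos.ne').1 h1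
  rw [← orderOf_dvd_iff_pow_eq_one, hj]
  exact pow_dvd_pow ℓ (h2.trans hv)

private theorem v9_pow_mod {X : Type} [Group X] {b : X} {m q q' : ℕ} (hb : b ^ m = 1)
    (hq : q ≡ q' [MOD m]) : b ^ q = b ^ q' :=
  pow_eq_pow_iff_modEq.2 (hq.of_dvd (orderOf_dvd_of_pow_eq_one hb))

private theorem v9_core {K Ω A : Type} [Field K] [CharZero K]
    [Field Ω] [Algebra K Ω] [IsAlgClosed Ω]
    [Algebra.IsAlgebraic K Ω] [Ring A] [Algebra K A] [IsAzumaya K A] (D : Datum K Ω A)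
    {ℓ : ℕ} (hℓ : ℓ.Prime) {σ t : Ω ≃ₐ[K] Ω}
    (hσ : ∀ x : Ω, ∃ n : ℕ, (σ ^ (ℓ ^ n)) x = x) (ht : ∀ x : Ω, ∃ n : ℕ, (t ^ (ℓ ^ n)) x = x)
    (mu : ∀ ζ : Ω, ζ ^ ℓ = 1 → σ ζ = ζ)
    (hR : ∃ (E1 : IntermediateField K Ω) (n : ℕ), FiniteDimensional K E1 ∧ n ≠ 0 ∧ ∀ q : ℕ,
      (∀ x ∈ E1, (σ * t * σ⁻¹) x = (t ^ q) x) → (∀ ζ : Ω, ζ ^ n = 1 → σ ζ = ζ ^ q) →
      OB D (AlgEquiv.restrictNormalHom D.E σ) (AlgEquiv.restrictNormalHom D.E t) q)
    (hrel : ∀ E1 : IntermediateField K Ω, FiniteDimensional K E1 → ∃ N1 : ℕ, ∀ q : ℕ,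
      (∀ ζ : Ω, ζ ^ (ℓ ^ N1) = 1 → σ ζ = ζ ^ q) → ∀ x ∈ E1, (σ * t * σ⁻¹) x = (t ^ q) x) :
    ∃ (a b : Ghat D) (N : ℕ), (∀ x : D.E, ((a.g x : D.E) : Ω) = σ x) ∧
      (∀ x : D.E, ((b.g x : D.E) : Ω) = t x) ∧ a ^ (ℓ ^ N) = 1 ∧ b ^ (ℓ ^ N) = 1 ∧
      ∀ q : ℕ, (∀ ζ : Ω, ζ ^ (ℓ ^ N) = 1 → σ ζ = ζ ^ q) → a * b * a⁻¹ = b ^ q := by
  have hfin := ghat_finite D
  obtain ⟨E1, n, hE1, hn, hR⟩ := hR
  obtain ⟨N1, hN1⟩ := hrel E1 hE1
  let N := max N1 (max ((Nat.card (Ghat D)).factorization ℓ) 1)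
  have hNN1 : N1 ≤ N := le_max_left _ _
  have hNf : (Nat.card (Ghat D)).factorization ℓ ≤ N := (le_max_left _ _).trans (le_max_right _ _)
  have hN0 : 1 ≤ N := (le_max_right _ _).trans (le_max_right _ _)
  have hlN : ℓ ^ N ≠ 0 := pow_ne_zero _ hℓ.ne_zero
  obtain ⟨q, hq⟩ := v9_exists_q σ (n * ℓ ^ N) (mul_ne_zero hn hlN)
  have hqn : ∀ ζ : Ω, ζ ^ n = 1 → σ ζ = ζ ^ q := fun ζ hζ =>
    hq ζ (by rw [pow_mul, hζ, one_pow])
  have hqN : ∀ ζ : Ω, ζ ^ (ℓ ^ N) = 1 → σ ζ = ζ ^ q := fun ζ hζ =>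
    hq ζ (by rw [mul_comm, pow_mul, hζ, one_pow])
  have hqN1 : ∀ ζ : Ω, ζ ^ (ℓ ^ N1) = 1 → σ ζ = ζ ^ q := fun ζ hζ =>
    hqN ζ (by
      obtain ⟨k, hk⟩ := pow_dvd_pow ℓ hNN1
      rw [hk, pow_mul, hζ, one_pow])
  have hq1 : q ≡ 1 [MOD ℓ] := by
    refine v9_cong (σ := σ) hℓ.ne_zero (fun ζ hζ => hqN ζ ?_) (fun ζ hζ => by rw [pow_one]; exact mu ζ hζ)
    obtain ⟨k, hk⟩ : ℓ ∣ ℓ ^ N := dvd_pow_self ℓ (by omega)
    rw [hk, pow_mul, hζ, one_pow]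
  obtain ⟨s, t', hs, ht', hst⟩ := hR q (hN1 q hqN1) hqn
  have hres : ∀ (g : Ω ≃ₐ[K] Ω) (x : D.E),
      ((AlgEquiv.restrictNormalHom D.E g x : D.E) : Ω) = g x := fun g x =>
    AlgEquiv.restrictNormal_commutes g D.E x
  have hone : ∀ g : Ω ≃ₐ[K] Ω, (∀ x : Ω, ∃ n : ℕ, (g ^ (ℓ ^ n)) x = x) →
      ∃ n : ℕ, (AlgEquiv.restrictNormalHom D.E g) ^ (ℓ ^ n) = 1 := by
    intro g hg
    obtain ⟨m, hm⟩ := v9_unif hg D.E
    refine ⟨m, ?_⟩
    rw [← map_pow]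
    apply AlgEquiv.ext
    intro x
    apply Subtype.ext
    rw [hres]
    exact hm _ x.2
  obtain ⟨a, b, N3, ha, hb, haN, hbN, hab⟩ := ell_parts (Ghat.pr D) hℓ s t' q hq1 hst
    (by rw [Ghat.pr_apply, hs]; exact hone σ hσ) (by rw [Ghat.pr_apply, ht']; exact hone t ht)
  rw [Ghat.pr_apply, Ghat.pr_apply] at ha hb
  have haN' := v9_kill hℓ haN hNf
  have hbN' := v9_kill hℓ hbN hNf
  refine ⟨a, b, N, fun x => ?_, fun x => ?_, haN', hbN', fun q' hq' => ?_⟩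
  · rw [ha, hs]
    exact hres σ x
  · rw [hb, ht']
    exact hres t x
  · rw [hab]
    exact v9_pow_mod hbN' (v9_cong hlN hqN hq')

theorem kpair_lifts (k : Type) [Field k] [CharZero k] {K Ω A : Type} [Field K] [CharZero K]
    [Field Ω] [Algebra k K] [Algebra K Ω] [Algebra k Ω] [IsScalarTower k K Ω] [IsAlgClosed Ω]
    [Algebra.IsAlgebraic K Ω] [Ring A] [Algebra K A] [IsAzumaya K A] (D : Datum K Ω A)
    (hR : ∀ V : ValuationSubring Ω, (∀ a : Ω, IsAlgebraic k a → a ∈ V) →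
      ∀ σ τ : Ω ≃ₐ[K] Ω, (∀ x, σ x ∈ V ↔ x ∈ V) → (∀ x, τ x ∈ V ↔ x ∈ V) →
      (∀ x ∈ V, V.valuation (τ x - x) < 1) →
      ∃ (E1 : IntermediateField K Ω) (n : ℕ), FiniteDimensional K E1 ∧ n ≠ 0 ∧ ∀ q : ℕ,
      (∀ x ∈ E1, (σ * τ * σ⁻¹) x = (τ ^ q) x) → (∀ ζ : Ω, ζ ^ n = 1 → σ ζ = ζ ^ q) →
      OB D (AlgEquiv.restrictNormalHom D.E σ) (AlgEquiv.restrictNormalHom D.E τ) q)
    {ℓ : ℕ} (hℓ : ℓ.Prime) {σ τ : Ω ≃ₐ[K] Ω} (P : KPair k ℓ σ τ) (hW : KWeight k ℓ σ τ) :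
    ∃ (a b : Ghat D) (N : ℕ), (∀ x : D.E, ((a.g x : D.E) : Ω) = σ x) ∧
      (∀ x : D.E, ((b.g x : D.E) : Ω) = τ x) ∧ a ^ (ℓ ^ N) = 1 ∧ b ^ (ℓ ^ N) = 1 ∧
      ∀ q : ℕ, (∀ ζ : Ω, ζ ^ (ℓ ^ N) = 1 → σ ζ = ζ ^ q) → a * b * a⁻¹ = b ^ q := by
  obtain ⟨V, c, t, hV, hσV, hτV, htV, hct, hc, htt, hAB⟩ := kpair_decomp k hℓ P hW
  rcases hAB with hA | hB
  · refine v9_core D hℓ P.pσ P.pτ P.mu (hR V hV σ τ hσV hτV hA) ?_
    intro E1 hE1
    classical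
    choose f hf using fun i => P.rel ((Module.finBasis K E1 i : E1) : Ω)
    refine ⟨Finset.univ.sup f, fun q hq => ?_⟩
    refine v9_agree (M := E1) (fun i => ?_)
    refine hf i q fun ζ hζ => hq ζ ?_
    obtain ⟨j, hj⟩ := pow_dvd_pow ℓ (Finset.le_sup (f := f) (Finset.mem_univ i))
    rw [hj, pow_mul, hζ, one_pow]
  · -- `σ` commutes with `τ`
    have hστ : σ * τ = τ * σ := by
      apply AlgEquiv.ext
      intro x
      obtain ⟨N, hN⟩ := P.rel (σ x)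
      have h1 := hN 1 (fun ζ hζ => by rw [pow_one]; exact hB N ζ hζ)
      rw [pow_one] at h1
      have h2 : (σ * τ * σ⁻¹) (σ x) = σ (τ x) := by
        change σ (τ (σ⁻¹ (σ x))) = _
        congr 2
        exact σ.symm_apply_apply x
      rw [h2] at h1
      exact h1
    -- `c` is locally a power of `σ`
    have hloc : ∀ x y : Ω, ∃ m : ℕ, c x = (σ ^ m) x ∧ c y = (σ ^ m) y := by
      intro x y
      have hfd : FiniteDimensional K (IntermediateField.adjoin K ({x, y} : Set Ω)) :=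
        IntermediateField.finiteDimensional_adjoin fun z _ => Algebra.IsIntegral.isIntegral z
      obtain ⟨m, hm⟩ := hc _ hfd
      exact ⟨m, hm x (IntermediateField.subset_adjoin K _ (by simp)),
        hm y (IntermediateField.subset_adjoin K _ (by simp))⟩
    have hcomm : ∀ g : Ω ≃ₐ[K] Ω, g * σ = σ * g → c * g = g * c := by
      intro g hg
      apply AlgEquiv.ext
      intro x
      obtain ⟨m, h1, h2⟩ := hloc x (g x)
      change c (g x) = g (c x)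
      rw [h1, h2, v9_pow_comm hg]
    have hcσ : c * σ = σ * c := hcomm σ rfl
    have hcτ : c * τ = τ * c := hcomm τ hστ.symm
    have hcpow : ∀ x : Ω, ∃ n : ℕ, (c ^ (ℓ ^ n)) x = x := by
      intro x
      obtain ⟨m, h1, -⟩ := hloc x x
      have h2 : ∀ j : ℕ, (c ^ j) x = (σ ^ (m * j)) x := by
        intro j
        induction j with
        | zero => rfl
        | succ j ih =>
          rw [pow_succ']
          change c ((c ^ j) x) = _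
          rw [ih, v9_pow_comm hcσ, h1]
          change (σ ^ (m * j) * σ ^ m) x = _
          rw [← pow_add]
          rfl
      obtain ⟨n, hn⟩ := P.pσ x
      refine ⟨n, ?_⟩
      rw [h2]
      exact v9_fix_dvd hn (dvd_mul_left _ _)
    have ht' : t = c⁻¹ * τ := by rw [hct]; group
    have htσ : σ * t = t * σ := by
      have h1 : Commute σ c⁻¹ := (show Commute σ c from hcσ.symm).inv_right
      have h2 : Commute σ τ := hστ
      rw [ht']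
      exact h1.mul_right h2
    have htc : Commute c t := by
      rw [ht']
      exact (Commute.refl c).inv_right.mul_right hcτ
    have htpow : ∀ x : Ω, ∃ n : ℕ, (t ^ (ℓ ^ n)) x = x := by
      intro x
      obtain ⟨n1, h1⟩ := P.pτ x
      obtain ⟨n2, h2⟩ := hcpow x
      have h3 := v9_fix_dvd h1 (pow_dvd_pow ℓ (le_max_left n1 n2))
      have h4 := v9_fix_dvd h2 (pow_dvd_pow ℓ (le_max_right n1 n2))
      refine ⟨max n1 n2, ?_⟩
      rw [hct, htc.mul_pow] at h3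
      have h5 : (t ^ (ℓ ^ (max n1 n2))) ((c ^ (ℓ ^ (max n1 n2))) x) = x := by
        have h6 := (htc.pow_pow (ℓ ^ (max n1 n2)) (ℓ ^ (max n1 n2))).eq
        rw [h6] at h3
        exact h3
      rw [h4] at h5
      exact h5
    obtain ⟨a, b0, N, ha, hb0, haN, hbN, hab⟩ := v9_core D hℓ P.pσ htpow P.mu
      (hR V hV σ t hσV htV htt) (by
        intro E1 hE1
        obtain ⟨N1, hN1⟩ := v9_unif htpow E1
        refine ⟨N1, fun q hq x hx => ?_⟩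
        have h1 : (σ * t * σ⁻¹) x = (t ^ 1) x := by
          rw [htσ, mul_inv_cancel_right, pow_one]
        rw [h1]
        refine v9_fix_mod (hN1 x hx) ?_
        exact v9_cong (σ := σ) (pow_ne_zero _ hℓ.ne_zero)
          (fun ζ hζ => by rw [pow_one]; exact hB N1 ζ hζ) hq)
    have hab1 : a * b0 * a⁻¹ = b0 := by
      have := hab 1 (fun ζ hζ => by rw [pow_one]; exact hB N ζ hζ)
      rwa [pow_one] at this
    have habc : Commute a b0 := mul_inv_eq_iff_eq_mul.1 hab1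
    obtain ⟨m, hm⟩ := hc D.E D.fin
    have hapow : ∀ (j : ℕ) (x : D.E), (((a ^ j).g x : D.E) : Ω) = (σ ^ j) x := by
      intro j
      induction j with
      | zero => intro x; rfl
      | succ j ih =>
        intro x
        rw [pow_succ, pow_succ, Ghat.mul_g]
        change (((a ^ j).g (a.g x) : D.E) : Ω) = (σ ^ j) (σ x)
        rw [ih, ha]
    have hbg : ∀ x : D.E, (((a ^ m * b0).g x : D.E) : Ω) = τ x := by
      intro x
      rw [Ghat.mul_g]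
      change (((a ^ m).g (b0.g x) : D.E) : Ω) = τ x
      rw [hapow, ← hm _ (b0.g x).2, hb0, hct]
      rfl
    have hbN' : (a ^ m * b0) ^ (ℓ ^ N) = 1 := by
      rw [(habc.pow_left m).mul_pow, ← pow_mul, mul_comm m, pow_mul, haN, one_pow, hbN, one_mul]
    refine ⟨a, a ^ m * b0, N, ha, hbg, haN, hbN', fun q hq => ?_⟩
    have hq1 : q ≡ 1 [MOD ℓ ^ N] := v9_cong (σ := σ) (pow_ne_zero _ hℓ.ne_zero) hq
      (fun ζ hζ => by rw [pow_one]; exact hB N ζ hζ)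
    rw [v9_pow_mod hbN' hq1, pow_one]
    have h1 : Commute a (a ^ m * b0) := ((Commute.refl a).pow_right m).mul_right habc
    exact mul_inv_eq_iff_eq_mul.2 h1

end Pool.Agent.SB
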