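import Pool.Agent.Helper79.SG.Mn1

set_option autoImplicit false
set_option maxHeartbeats 400000

/-!
# PROJECT SB: the main theorem, assembled from the blocks
-/

open MvPolynomial IntermediateField NumberField IsDedekindDomain
open scoped TensorProduct

namespace Pool.Agent.SB

open Pool.Agent.Helper8.BR Pool.Agent.Helper1.SR

section

variable {k : Type} [Field k] [NumberField k] {Ω : Type} [Field Ω] [Algebra k Ω] [IsAlgClosed Ω]
  {n : ℕ} {ξ : Fin (n + 1) → Ω}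

/-- finite places -/
theorem exists_fin (hξ : ξ ≠ 0) [Algebra.IsAlgebraic (funField k ξ) Ω]
    (U : Ultrafilter (Idx k ξ))
    (hU : ∀ (e : ℕ) (g : MvPolynomial (Fin (n + 1)) k), Adm k ξ e g →
      ∀ᶠ i in (U : Filter (Idx k ξ)), etCover k ξ e g ≤ etCover k ξ i.e i.g)
    (s : Secs k ξ) (hs : ∀ i : Idx k ξ, IsSplitting k ξ i.e i.g (s i))
    (v : HeightOneSpectrum (𝓞 k)) :
    ∃ (j : kbar k Ω →ₐ[k] AlgebraicClosure (v.adicCompletion k))
      (x : Fin (n + 1) → v.adicCompletion k), GoodPt U s (v.adicCompletion k) j x := by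
  have hclk : IsAlgClosure k (kbar k Ω) := inferInstance
  have hcl : IsAlgClosed (kbar k Ω) := hclk.1
  obtain ⟨j⟩ := exists_emb (k := k) (Ω := Ω) (v.adicCompletion k)
  obtain ⟨x, hx⟩ := exists_goodPt hξ U hU s hs (v.adicCompletion k) j
    (fun Q _ _ => Pool.Agent.Helper60.SL.finite_homs_F (j := j) le_rfl
      (by
        have h1 : extendScalars (le_refl (decField j)) = ⊥ := by
          rw [extendScalars_self]
        rw [h1]
        infer_instance) Q)
    (fun S hS => place_fin (funField k ξ) v j S hS)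
  exact ⟨j, x, hx⟩

/-- infinite places -/
theorem exists_inf (hξ : ξ ≠ 0) [Algebra.IsAlgebraic (funField k ξ) Ω]
    (U : Ultrafilter (Idx k ξ))
    (hU : ∀ (e : ℕ) (g : MvPolynomial (Fin (n + 1)) k), Adm k ξ e g →
      ∀ᶠ i in (U : Filter (Idx k ξ)), etCover k ξ e g ≤ etCover k ξ i.e i.g)
    (s : Secs k ξ) (hs : ∀ i : Idx k ξ, IsSplitting k ξ i.e i.g (s i))
    (w : InfinitePlace k) :
    ∃ (x : Fin (n + 1) → w.Completion), OnX k ξ x ∧
      ((∃ j : kbar k Ω →ₐ[k] AlgebraicClosure w.Completion,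
        GoodPt U s w.Completion j x) ∨
      ∀ (α : BrClass k ξ) (B : Type) [Ring B] [Algebra k B] [IsAzumaya k B],
        ValueIs k α x B) := by
  have hclk : IsAlgClosure k (kbar k Ω) := inferInstance
  have hcl : IsAlgClosed (kbar k Ω) := hclk.1
  rcases w.isReal_or_isComplex with hw | hw
  · obtain ⟨j⟩ := exists_emb (k := k) (Ω := Ω) w.Completion
    obtain ⟨x, hx⟩ := exists_goodPt hξ U hU s hs w.Completion j
      (fun Q _ _ => by
        have h1 := (Pool.Agent.Helper60.SL.arch_finite w j).1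
        have h2 : Finite ((decField j).fixingSubgroup →* Q) := DFunLike.finite _
        exact Set.toFinite _)
      (fun S hS => place_inf (funField k ξ) w hw j S hS)
    exact ⟨x, hx.1, Or.inl ⟨j, hx⟩⟩
  · have : IsAlgClosed w.Completion :=
      IsAlgClosed.of_ringEquiv ℂ w.Completion
        (InfinitePlace.Completion.ringEquivComplexOfIsComplex hw).symm
    obtain ⟨x, hx, hx'⟩ := exists_point_closed k ξ hξ w.Completion
    exact ⟨x, hx, Or.inr fun α B _ _ _ => hx' α B⟩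

/-- the restriction of a splitting to a finite subextension is a good homomorphism -/
theorem goodHom_restrict [Algebra.IsAlgebraic (funField k ξ) Ω] {A : Type} [Ring A]
    [Algebra (funField k ξ) A] (D : Datum (funField k ξ) Ω A) (e : ℕ)
    (g : MvPolynomial (Fin (n + 1)) k) (hDE : D.E ≤ etCover k ξ e g)
    (s : (kbar k Ω ≃ₐ[k] kbar k Ω) →*
      (etCover k ξ e g ≃ₐ[funField k ξ] etCover k ξ e g)) (hs : IsSplitting k ξ e g s)
    (h : (kbar k Ω ≃ₐ[k] kbar k Ω) →* (D.E ≃ₐ[funField k ξ] D.E))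
    (hh : ∀ (γ : kbar k Ω ≃ₐ[k] kbar k Ω) (θ : Ω) (h1 : θ ∈ D.E) (h2 : θ ∈ etCover k ξ e g),
      ((h γ ⟨θ, h1⟩ : D.E) : Ω) = ((s γ ⟨θ, h2⟩ : etCover k ξ e g) : Ω)) :
    GoodHom D k (kbar k Ω) h := by
  constructor
  · refine lc_of_stab h fun θ => ?_
    have h1 := (ksec_of_splitting k ξ s hs ⊤).cont ⟨(θ : Ω), hDE θ.2⟩
    have h2 : {γ : kbar k Ω ≃ₐ[k] kbar k Ω | h γ θ = θ} =
        (fun γ => (⟨γ, Subgroup.mem_top γ⟩ : (⊤ : Subgroup (kbar k Ω ≃ₐ[k] kbar k Ω)))) ⁻¹'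
        {γ : (⊤ : Subgroup (kbar k Ω ≃ₐ[k] kbar k Ω)) |
          (s.comp (⊤ : Subgroup (kbar k Ω ≃ₐ[k] kbar k Ω)).subtype) γ
            ⟨(θ : Ω), hDE θ.2⟩ = ⟨(θ : Ω), hDE θ.2⟩} := by
      ext γ
      simp only [Set.mem_ofPred_eq, Set.mem_preimage]
      rw [Subtype.ext_iff, Subtype.ext_iff, hh γ θ θ.2 (hDE θ.2)]
      rfl
    rw [h2]
    exact h1.preimage (by fun_prop)
  · intro g' ζ e' hζ he
    have h1 : (ζ : Ω) ∈ D.E := by
      rw [show (ζ : Ω) = (e' : Ω) from he.symm]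
      exact e'.2
    have h2 : e' = ⟨(ζ : Ω), h1⟩ := Subtype.ext he
    rw [h2, hh g' (ζ : Ω) h1 (hDE h1)]
    exact hs.2 g' ζ (hDE h1)

/-- `h` is the restriction to `M` of the section of index `i` -/
def ResOf (s : Secs k ξ) (M : IntermediateField (funField k ξ) Ω) (i : Idx k ξ)
    (h : (kbar k Ω ≃ₐ[k] kbar k Ω) →* (M ≃ₐ[funField k ξ] M)) : Prop :=
  ∀ (γ : kbar k Ω ≃ₐ[k] kbar k Ω) (θ : Ω) (h1 : θ ∈ M) (h2 : θ ∈ etCover k ξ i.e i.g),
    ((h γ ⟨θ, h1⟩ : M) : Ω) = ((s i γ ⟨θ, h2⟩ : etCover k ξ i.e i.g) : Ω)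

/-- agreement with the section of index `i` on `M` -/
def AgrAt (s : Secs k ξ) (M : IntermediateField (funField k ξ) Ω)
    (G : Subgroup (kbar k Ω ≃ₐ[k] kbar k Ω)) (S : G →* (Ω ≃ₐ[funField k ξ] Ω))
    (i : Idx k ξ) : Prop :=
  ∀ (γ : G) (θ : etCover k ξ i.e i.g), (θ : Ω) ∈ M →
    S γ (θ : Ω) = ((s i (γ : kbar k Ω ≃ₐ[k] kbar k Ω) θ : etCover k ξ i.e i.g) : Ω)

omit [NumberField k] [IsAlgClosed Ω] in
theorem agr_res (s : Secs k ξ) (M : IntermediateField (funField k ξ) Ω)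
    (G : Subgroup (kbar k Ω ≃ₐ[k] kbar k Ω)) (S : G →* (Ω ≃ₐ[funField k ξ] Ω))
    (i : Idx k ξ) (hS : AgrAt s M G S i) (hle : M ≤ etCover k ξ i.e i.g)
    (h : (kbar k Ω ≃ₐ[k] kbar k Ω) →* (M ≃ₐ[funField k ξ] M)) (hh : ResOf s M i h) (γ : G)
    (θ : M) : ((h (γ : kbar k Ω ≃ₐ[k] kbar k Ω) θ : M) : Ω) = S γ (θ : Ω) :=
  (hh γ (θ : Ω) θ.2 (hle θ.2)).trans (hS γ ⟨(θ : Ω), hle θ.2⟩ θ.2).symm

/-- values at an infinite place -/
theorem inf_value (U : Ultrafilter (Idx k ξ)) (s : Secs k ξ) (w : InfinitePlace k)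
    (x : Fin (n + 1) → w.Completion)
    (hQ : (∃ j : kbar k Ω →ₐ[k] AlgebraicClosure w.Completion,
        GoodPt U s w.Completion j x) ∨
      ∀ (α : BrClass k ξ) (B : Type) [Ring B] [Algebra k B] [IsAzumaya k B],
        ValueIs k α x B) (α : BrClass k ξ) (A : Type) [Ring A] [Algebra (funField k ξ) A]
    [IsAzumaya (funField k ξ) A] (hA : GenRep k α A) (D : Datum (funField k ξ) Ω A) :
    ∀ᶠ i : Idx k ξ in (U : Filter (Idx k ξ)), D.E ≤ etCover k ξ i.e i.g →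
      ∀ (h : (kbar k Ω ≃ₐ[k] kbar k Ω) →* (D.E ≃ₐ[funField k ξ] D.E)), ResOf s D.E i h →
      GoodHom D k (kbar k Ω) h → ∀ (B : Az k), Form D k (kbar k Ω) h B →
      ValueIs k α x B := by
  rcases hQ with ⟨jw, hjw⟩ | hw
  · obtain ⟨-, S, hagr, hval⟩ := hjw
    filter_upwards [hagr D.E D.fin] with i hi hle h hh hgood B hB
    exact hval α A hA D h hgood B hB (Or.inl (agr_res s D.E _ S i hi hle h hh))
  · exact Filter.Eventually.of_forall fun i _ h _ _ B _ => hw α B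

/-- the conclusion of `local_lift` for the embedding `j` -/
def LiftAt (k : Type) [Field k] [NumberField k] {Ω : Type} [Field Ω] [Algebra k Ω]
    {ξ : Fin (n + 1) → Ω} {A : Type} [Ring A] [Algebra (funField k ξ) A]
    (D : Datum (funField k ξ) Ω A) (F : IntermediateField (funField k ξ) Ω)
    (G : Subgroup (kbar k Ω ≃ₐ[k] kbar k Ω)) : Prop :=
  ∀ (E : IntermediateField (funField k ξ) Ω), F ≤ E →
        ∀ (s : G →* (E ≃ₐ[funField k ξ] E)), KSec k (funField k ξ) G E s →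
        ∀ h : G →* (D.E ≃ₐ[funField k ξ] D.E),
          (∀ (γ : G) (θ : Ω) (h1 : θ ∈ D.E) (h2 : θ ∈ E),
            ((h γ ⟨θ, h1⟩ : D.E) : Ω) = ((s γ ⟨θ, h2⟩ : E) : Ω)) →
          ∃ H : G →* Ghat D, IsOpen (H.ker : Set G) ∧ ∀ γ, (H γ).g = h γ

theorem lift_res [Algebra.IsAlgebraic (funField k ξ) Ω]
    (s : Secs k ξ) (hs : ∀ i : Idx k ξ, IsSplitting k ξ i.e i.g (s i))
    {A : Type} [Ring A] [Algebra (funField k ξ) A]
    (D : Datum (funField k ξ) Ω A) (F : IntermediateField (funField k ξ) Ω)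
    (G : Subgroup (kbar k Ω ≃ₐ[k] kbar k Ω)) (hl : LiftAt k D F G) (i : Idx k ξ)
    (hi : F ≤ etCover k ξ i.e i.g)
    (h : (kbar k Ω ≃ₐ[k] kbar k Ω) →* (D.E ≃ₐ[funField k ξ] D.E)) (hh : ResOf s D.E i h) :
    ∃ H : G →* Ghat D, IsOpen (H.ker : Set G) ∧
      ∀ γ, (H γ).g = h (γ : kbar k Ω ≃ₐ[k] kbar k Ω) :=
  hl (etCover k ξ i.e i.g) hi ((s i).comp G.subtype) (ksec_of_splitting k ξ (s i) (hs i) G)
    (h.comp G.subtype) fun γ θ h1 h2 => hh (γ : kbar k Ω ≃ₐ[k] kbar k Ω) θ h1 h2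

/-- one class: all values of `α` at the points come from one Azumaya algebra over `k` -/
theorem main_class (hξ : ξ ≠ 0) [Algebra.IsAlgebraic (funField k ξ) Ω]
    (U : Ultrafilter (Idx k ξ))
    (hU : ∀ (e : ℕ) (g : MvPolynomial (Fin (n + 1)) k), Adm k ξ e g →
      ∀ᶠ i in (U : Filter (Idx k ξ)), etCover k ξ e g ≤ etCover k ξ i.e i.g)
    (s : Secs k ξ) (hs : ∀ i : Idx k ξ, IsSplitting k ξ i.e i.g (s i))
    (j : ∀ v : HeightOneSpectrum (𝓞 k), kbar k Ω →ₐ[k] AlgebraicClosure (v.adicCompletion k))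
    (P : ∀ v : HeightOneSpectrum (𝓞 k), Fin (n + 1) → v.adicCompletion k)
    (S : ∀ v : HeightOneSpectrum (𝓞 k), (decField (j v)).fixingSubgroup →*
      (Ω ≃ₐ[funField k ξ] Ω))
    (hS : ∀ v : HeightOneSpectrum (𝓞 k),
      Agr (funField k ξ) (U : Filter (Idx k ξ)) (fun i : Idx k ξ => etCover k ξ i.e i.g)
        (fun i : Idx k ξ => (s i).comp (decField (j v)).fixingSubgroup.subtype) (S v))
    (hval : ∀ v : HeightOneSpectrum (𝓞 k),
      ValProp ξ (v.adicCompletion k) (P v) (decField (j v)).fixingSubgroup (S v))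
    (Q : ∀ w : InfinitePlace k, Fin (n + 1) → w.Completion)
    (hQ : ∀ w : InfinitePlace k,
      ((∃ j : kbar k Ω →ₐ[k] AlgebraicClosure w.Completion,
        GoodPt U s w.Completion j (Q w)) ∨
      ∀ (α : BrClass k ξ) (B : Type) [Ring B] [Algebra k B] [IsAzumaya k B],
        ValueIs k α (Q w) B)) (α : BrClass k ξ) :
    ∃ (B : Type) (_ : Ring B) (_ : Algebra k B), IsAzumaya k B ∧
      (∀ v : HeightOneSpectrum (𝓞 k), ValueIs k α (P v) B) ∧
      ∀ w : InfinitePlace k, ValueIs k α (Q w) B := by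
  have hclk : IsAlgClosure k (kbar k Ω) := inferInstance
  have hcl : IsAlgClosed (kbar k Ω) := hclk.1
  have hgal : IsGalois k (kbar k Ω) := inferInstance
  have hcK : CharZero (funField k ξ) :=
    charZero_of_injective_algebraMap (algebraMap k (funField k ξ)).injective
  obtain ⟨A, _, _, hAz, hA⟩ := exists_genRep k ξ hξ α
  obtain ⟨D⟩ := exists_datum (funField k ξ) Ω A
  have hDfin : FiniteDimensional (funField k ξ) D.E := D.fin
  have hDnor : Normal (funField k ξ) D.E := D.gal.to_normal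
  obtain ⟨e0, g0, hg0, hDE, S0, hS0⟩ := local_lift k ξ hξ α A hA D
  have hS0' : ∀ v ∉ S0, LiftAt k D (etCover k ξ e0 g0) (decField (j v)).fixingSubgroup :=
    fun v hv E hE s hs h hh => hS0 v hv (j v) E hE s hs h hh
  -- agreement at the places of `S0` and at the infinite places
  have ha1 : ∀ v : HeightOneSpectrum (𝓞 k), ∀ᶠ i : Idx k ξ in (U : Filter (Idx k ξ)),
      AgrAt s D.E (decField (j v)).fixingSubgroup (S v) i := fun v => hS v D.E D.fin
  have ha2 : ∀ w : InfinitePlace k, ∀ᶠ i : Idx k ξ in (U : Filter (Idx k ξ)),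
      D.E ≤ etCover k ξ i.e i.g →
      ∀ (h : (kbar k Ω ≃ₐ[k] kbar k Ω) →* (D.E ≃ₐ[funField k ξ] D.E)), ResOf s D.E i h →
      GoodHom D k (kbar k Ω) h → ∀ (B : Az k), Form D k (kbar k Ω) h B →
      ValueIs k α (Q w) B := fun w => inf_value U s w (Q w) (hQ w) α A hA D
  have hev := ((hU e0 g0 hg0).and ((Filter.eventually_all_finset S0).2
    fun v _ => ha1 v)).and (Filter.eventually_all.2 ha2)
  obtain ⟨i, ⟨hi0, hi1⟩, hi2⟩ := hev.exists
  have hle : D.E ≤ etCover k ξ i.e i.g := hDE.trans hi0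
  have hres : ∀ i : Idx k ξ, D.E ≤ etCover k ξ i.e i.g →
      ∃ h : (kbar k Ω ≃ₐ[k] kbar k Ω) →* (D.E ≃ₐ[funField k ξ] D.E), ResOf s D.E i h :=
    fun i hle => exists_restrict k (funField k ξ) D.E (etCover k ξ i.e i.g) hle (s i)
  obtain ⟨h, hh⟩ := hres i hle
  have hgood : GoodHom D k (kbar k Ω) h := goodHom_restrict D i.e i.g hle (s i) (hs i) h hh
  obtain ⟨B, hB⟩ := form_exists D k (kbar k Ω) h hgood
  refine ⟨B, inferInstance, inferInstance, inferInstance, fun v => ?_, fun w =>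
    hi2 w hle h hh hgood B hB⟩
  refine hval v α A hA D h hgood B hB ?_
  by_cases hv : v ∈ S0
  · left
    exact agr_res s D.E _ (S v) i (hi1 v hv) hle h hh
  · right
    refine ⟨lift_res s hs D _ _ (hS0' v hv) i hi0 h hh, ?_⟩
    obtain ⟨i', hi'0, hi'1⟩ := ((hU e0 g0 hg0).and (ha1 v)).exists
    have hle' : D.E ≤ etCover k ξ i'.e i'.g := hDE.trans hi'0
    obtain ⟨h', hh'⟩ := hres i' hle'
    obtain ⟨H, hHo, hHg⟩ := lift_res s hs D _ _ (hS0' v hv) i' hi'0 h' hh'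
    refine ⟨H, hHo, fun γ θ => ?_⟩
    rw [hHg γ]
    exact agr_res s D.E _ (S v) i' hi'1 hle' h' hh' γ θ

/-- MAIN THEOREM: if the splitting condition holds then there are local points `P v`, `Q w` at all
places of `k` such that for every class `α` in the Brauer group of `X` the values of `α` at
the points are the localisations of one class in the Brauer group of `k` -/
theorem main (k : Type) [Field k] [NumberField k] (Ω : Type) [Field Ω] [Algebra k Ω]
    [IsAlgClosed Ω] {n : ℕ} (ξ : Fin (n + 1) → Ω) (hξ : ξ ≠ 0)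
    [Algebra.IsAlgebraic (funField k ξ) Ω] (hsplit : SplittingCondition k ξ) :
    ∃ (P : ∀ v : HeightOneSpectrum (𝓞 k), Fin (n + 1) → v.adicCompletion k)
      (Q : ∀ w : InfinitePlace k, Fin (n + 1) → w.Completion),
      (∀ v, OnX k ξ (P v)) ∧ (∀ w, OnX k ξ (Q w)) ∧
      ∀ α : BrClass k ξ, ∃ (B : Type) (_ : Ring B) (_ : Algebra k B), IsAzumaya k B ∧
        (∀ v, ValueIs k α (P v) B) ∧ ∀ w, ValueIs k α (Q w) B := by
  obtain ⟨U, hU⟩ := exists_ultra k ξ hξ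
  have h0 : ∀ i : Idx k ξ, ∃ s, IsSplitting k ξ i.e i.g s := fun i =>
    hsplit i.e i.g i.adm.pos i.adm.hom i.adm.ne i.normal
  choose s hs using h0
  choose j P hP using fun v : HeightOneSpectrum (𝓞 k) => exists_fin hξ U hU s hs v
  choose Q hQ using fun w : InfinitePlace k => exists_inf hξ U hU s hs w
  choose S hS using fun v : HeightOneSpectrum (𝓞 k) => (hP v).2
  exact ⟨P, Q, fun v => (hP v).1, fun w => (hQ w).1, fun α =>
    main_class hξ U hU s hs j P S (fun v => (hS v).1) (fun v => (hS v).2) Q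
      (fun w => (hQ w).2) α⟩

end

end Pool.Agent.SB
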