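import Pool.Agent.Helper79.SB.ET
import Pool.Agent.Helper1.SR.Form

set_option autoImplicit false

/-!
# PROJECT SB, block G: definitions
-/

open MvPolynomial IntermediateField NumberField IsDedekindDomain
open scoped TensorProduct

namespace Pool.Agent.SB

open Pool.Agent.Helper8.BR Pool.Agent.Helper1.SR

section

variable (k : Type) [Field k] {Ω : Type} [Field Ω] [Algebra k Ω] (K : IntermediateField k Ω)

/-- a section over the subgroup `D` of `Gal(kbar/k)` with values in `Gal(E/K)`: open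
stabilisers, and `s γ` induces `γ` on `kbar ∩ E` -/
structure KSec (D : Subgroup (kbar k Ω ≃ₐ[k] kbar k Ω)) (E : IntermediateField K Ω)
    (s : D →* (E ≃ₐ[K] E)) : Prop where
  cont : ∀ θ : E, IsOpen {γ : D | s γ θ = θ}
  ind : ∀ (γ : D) (θ : kbar k Ω) (h : (θ : Ω) ∈ E),
    ((s γ ⟨θ, h⟩ : E) : Ω) = ((γ : kbar k Ω ≃ₐ[k] kbar k Ω) θ : kbar k Ω)

/-- a section over `D` with values in `Gal(Ω/K)` -/
structure FSec (D : Subgroup (kbar k Ω ≃ₐ[k] kbar k Ω)) (s : D →* (Ω ≃ₐ[K] Ω)) : Prop where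
  cont : ∀ θ : Ω, IsOpen {γ : D | s γ θ = θ}
  ind : ∀ (γ : D) (θ : kbar k Ω),
    s γ (θ : Ω) = ((γ : kbar k Ω ≃ₐ[k] kbar k Ω) θ : kbar k Ω)

/-- the fixed field of a section with values in `Gal(Ω/K)` -/
def fixF {D : Subgroup (kbar k Ω ≃ₐ[k] kbar k Ω)} (s : D →* (Ω ≃ₐ[K] Ω)) :
    IntermediateField K Ω where
  carrier := {x | ∀ γ : D, s γ x = x}
  mul_mem' := fun ha hb γ => by rw [map_mul, ha γ, hb γ]
  add_mem' := fun ha hb γ => by rw [map_add, ha γ, hb γ]
  algebraMap_mem' := fun r γ => (s γ).commutes r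
  inv_mem' := fun x hx γ => by rw [map_inv₀, hx γ]

end

section

variable (k : Type) [Field k] {Ω : Type} [Field Ω] [Algebra k Ω] {n : ℕ} (ξ : Fin (n + 1) → Ω)

/-- the index set: normal affine open sets `g ≠ 0` -/
structure Idx where
  /-- the degree -/
  e : ℕ
  /-- the form -/
  g : MvPolynomial (Fin (n + 1)) k
  adm : Adm k ξ e g
  normal : IsIntegrallyClosed (coordRing k ξ e g)

end

end Pool.Agent.SB
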