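import Pool.Agent.Helper98.SGA.Limit
import Pool.Agent.Helper98.SGA.Place
import Pool.Agent.Helper82.SG.ObClass
import Pool.Agent.Helper37.SB.PointX
import Pool.Agent.Helper1.SG.LL

set_option autoImplicit false

/-!
# PROJECT SB, block G: interface

(GA1) `exists_limit`: limit of sections (Helper98/SGA/Limit); (GA2), (GA3) `place_fin`,
`place_inf`: place theorem for the fixed field of a section (Helper98/SGA/Place);
(P0) `GenRep`, `exists_genRep`, (P1) `ob_class` (Helper82/SG); (P2) `exists_point`,
(P3) `exists_point_closed` (Helper37/SB/PointX); (GB) `local_lift` (Helper1/SG/LL).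
-/
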