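import Pool.Agent.Helper79.SG.Defs

set_option autoImplicit false

/-!
# SB-G-05: splittings as sections, the ultrafilter on the open sets

`ksec_of_splitting`: `ind` is `hs.2`.  `cont`: for `θ ∈ E = etCover` (algebraic over `K = funField`, as `Ω` is) the set
`{φ : E ≃ₐ[K] E | φ θ = θ}` is open in the Krull topology (`IntermediateField.fixingSubgroup_isOpen` for `K⟮θ⟯`, or
`stabilizer_isOpen_of_isIntegral`), and `s` and the inclusion of `D` are continuous.
`exists_ultra`: sets `A(e, g) = {i | etCover k ξ e g ≤ etCover k ξ i.e i.g}` have the finite intersection property: for finitely many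
admissible `(e_t, g_t)` and a normal `(e_0, g_0)` (`exists_normal`) the product `g_0 ∏ g_t` is admissible and normal (`coordRing_mul`), and
`etCover` of each factor is contained in `etCover` of the product (`etCover_mul` and commutativity of the product: rewrite
`e + e' = e' + e`, `g * g' = g' * g`).  Take an ultrafilter containing all `A(e, g)` (`Filter.generate`, `Ultrafilter.of`), or order `Idx` by
`etCover`, directed, and `Ultrafilter.of atTop`.
`eventually_le`: `exists_etCover`.
-/

open MvPolynomial IntermediateField NumberField IsDedekindDomain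

namespace Pool.Agent.SB

private theorem h86_isOpen_fix {K : Type*} {L : Type*} [Field K] [Field L] [Algebra K L]
    [Algebra.IsAlgebraic K L] (θ : L) : IsOpen {φ : L ≃ₐ[K] L | φ θ = θ} := by
  have h1 : {φ : L ≃ₐ[K] L | φ θ = θ} = ((K⟮θ⟯).fixingSubgroup : Set (L ≃ₐ[K] L)) := by
    ext φ
    simp only [Set.mem_setOf_eq, SetLike.mem_coe, IntermediateField.mem_fixingSubgroup_iff]
    constructor
    · intro h x hx
      have h2 : K⟮θ⟯ ≤ IntermediateField.fixedField (Subgroup.zpowers φ) := by
        rw [IntermediateField.adjoin_simple_le_iff, IntermediateField.mem_fixedField_iff]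
        intro f hf
        obtain ⟨m, rfl⟩ := Subgroup.mem_zpowers_iff.mp hf
        have h3 : φ ∈ MulAction.stabilizer (L ≃ₐ[K] L) θ := h
        exact (Subgroup.zpow_mem _ h3 m)
      exact (IntermediateField.mem_fixedField_iff _ _).mp (h2 hx) φ (Subgroup.mem_zpowers φ)
    · intro h
      exact h θ (IntermediateField.mem_adjoin_simple_self K θ)
  rw [h1]
  haveI : FiniteDimensional K K⟮θ⟯ :=
    IntermediateField.adjoin.finiteDimensional (Algebra.IsIntegral.isIntegral θ)
  exact IntermediateField.fixingSubgroup_isOpen _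

variable (k : Type) [Field k] [NumberField k] {Ω : Type} [Field Ω] [Algebra k Ω] [IsAlgClosed Ω]
  {n : ℕ} (ξ : Fin (n + 1) → Ω)

theorem ksec_of_splitting [Algebra.IsAlgebraic (funField k ξ) Ω] {e : ℕ}
    {g : MvPolynomial (Fin (n + 1)) k}
    (s : (kbar k Ω ≃ₐ[k] kbar k Ω) →*
      (etCover k ξ e g ≃ₐ[funField k ξ] etCover k ξ e g)) (hs : IsSplitting k ξ e g s)
    (D : Subgroup (kbar k Ω ≃ₐ[k] kbar k Ω)) :
    KSec k (funField k ξ) D (etCover k ξ e g) (s.comp D.subtype) := by
  constructor
  · intro θ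
    have h1 := h86_isOpen_fix (K := funField k ξ) (L := etCover k ξ e g) θ
    have h2 : Continuous (fun γ : D => s (γ : kbar k Ω ≃ₐ[k] kbar k Ω)) :=
      hs.1.comp continuous_subtype_val
    exact h1.preimage h2
  · intro γ θ h
    exact hs.2 γ θ h

theorem exists_ultra (hξ : ξ ≠ 0) [Algebra.IsAlgebraic (funField k ξ) Ω] :
    ∃ U : Ultrafilter (Idx k ξ), ∀ (e : ℕ) (g : MvPolynomial (Fin (n + 1)) k), Adm k ξ e g →
      ∀ᶠ i in (U : Filter (Idx k ξ)), etCover k ξ e g ≤ etCover k ξ i.e i.g := by
  classical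
  let A : Set (Set (Idx k ξ)) := {B | ∃ (e : ℕ) (g : MvPolynomial (Fin (n + 1)) k),
    Adm k ξ e g ∧ B = {i | etCover k ξ e g ≤ etCover k ξ i.e i.g}}
  have key : ∀ t : Set (Set (Idx k ξ)), t.Finite → t ⊆ A → (⋂₀ t).Nonempty := by
    intro t ht
    induction t, ht using Set.Finite.induction_on with
    | empty =>
      intro _
      obtain ⟨e, g, h, hn⟩ := exists_normal k ξ hξ
      exact ⟨⟨e, g, h, hn⟩, by simp⟩
    | @insert B t _ _ ih =>
      intro hsub
      obtain ⟨i, hi⟩ := ih (fun x hx => hsub (Set.mem_insert_of_mem _ hx))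
      obtain ⟨e, g, h, rfl⟩ := hsub (Set.mem_insert B t)
      refine ⟨⟨i.e + e, i.g * g, i.adm.mul k h, coordRing_mul k i.adm h i.normal⟩, ?_⟩
      rw [Set.mem_sInter]
      intro C hC
      rcases Set.mem_insert_iff.mp hC with rfl | hC
      · have h1 := etCover_mul k h i.adm
        rw [add_comm e i.e, mul_comm g i.g] at h1
        exact h1
      · obtain ⟨e', g', h', rfl⟩ := hsub (Set.mem_insert_of_mem _ hC)
        have h2 : etCover k ξ e' g' ≤ etCover k ξ i.e i.g := Set.mem_sInter.mp hi _ hC
        exact h2.trans (etCover_mul k i.adm h)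
  haveI : (Filter.generate A).NeBot :=
    Filter.generate_neBot_iff.mpr (fun t hts htf => key t htf hts)
  refine ⟨Ultrafilter.of (Filter.generate A), fun e g h => ?_⟩
  exact Ultrafilter.of_le (Filter.generate A)
    (Filter.mem_generate_of_mem (s := A) ⟨e, g, h, rfl⟩)

theorem eventually_le (hξ : ξ ≠ 0) [Algebra.IsAlgebraic (funField k ξ) Ω]
    (U : Ultrafilter (Idx k ξ))
    (hU : ∀ (e : ℕ) (g : MvPolynomial (Fin (n + 1)) k), Adm k ξ e g →
      ∀ᶠ i in (U : Filter (Idx k ξ)), etCover k ξ e g ≤ etCover k ξ i.e i.g)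
    (M : IntermediateField (funField k ξ) Ω) [FiniteDimensional (funField k ξ) M] :
    ∀ᶠ i in (U : Filter (Idx k ξ)), M ≤ etCover k ξ i.e i.g := by
  obtain ⟨e, g, h, hM⟩ := exists_etCover k ξ hξ M
  exact (hU e g h).mono (fun i hi => hM.trans hi)

end Pool.Agent.SB
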