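import Pool.Agent.Helper79.SG.Defs

set_option autoImplicit false

/-!
# SB-G-06: the Galois group of the fixed field of a section; restrictions

`gal_fixF`: `D` is closed in the profinite group `Gal(kbar/k)` (compact: `Gal` of the algebraic Galois extension `kbar/k`), so `D` is compact.
`S : D → Gal(Ω/K)` is continuous for the Krull topology (`hS.cont`: the stabilisers of elements are open, so the preimage of the
fixing subgroup of a finite extension is open; `continuous_of_continuousAt_one`).  The image `R` of `S` is a compact, so closed subgroup of `Gal(Ω/K)`;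
its fixed field is `fixF k K S`; by infinite Galois theory (`InfiniteGalois.fixingSubgroup_fixedField` for the closed subgroup) `g ∈ R`.
`exists_restrict`: `M/K` normal, `M ≤ E`: for `φ ∈ Gal(E/K)` and `θ ∈ M`, `φ θ` is a conjugate of `θ`, so it is in `M`: define `h γ` by restriction
(or `AlgEquiv.restrictNormalHom` with `(IntermediateField.inclusion hME).toAlgebra`).
`exists_restrict_full`: the same with `Ω` instead of `E` (`AlgEquiv.restrictNormalHom M`).
-/

open MvPolynomial IntermediateField NumberField IsDedekindDomain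

namespace Pool.Agent.SB

private theorem m2_mem {K Ω : Type} [Field K] [CharZero K] [Field Ω] [Algebra K Ω] (E : IntermediateField K Ω)
    [FiniteDimensional K E] : ∃ α ∈ E, ∀ g : Ω ≃ₐ[K] Ω, g α = α → g ∈ E.fixingSubgroup := by
  obtain ⟨α, hα⟩ := Field.exists_primitive_element K E
  refine ⟨α, α.2, fun g hg => ?_⟩
  rw [IntermediateField.mem_fixingSubgroup_iff]
  intro x hx
  have h1 : (⟨x, hx⟩ : E) ∈ IntermediateField.adjoin K {α} := by
    rw [hα]
    exact IntermediateField.mem_top
  have h2 : ∀ y : E, y ∈ IntermediateField.adjoin K {α} → g (y : Ω) = y := by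
    intro y hy
    induction hy using IntermediateField.adjoin_induction with
    | mem y hy =>
      rw [Set.mem_singleton_iff.1 hy]
      exact hg
    | algebraMap y => exact g.commutes y
    | add a b _ _ ha hb =>
      change g ((a : Ω) + b) = (a : Ω) + b
      rw [map_add, ha, hb]
    | inv a _ ha =>
      change g (a : Ω)⁻¹ = (a : Ω)⁻¹
      rw [map_inv₀, ha]
    | mul a b _ _ ha hb =>
      change g ((a : Ω) * b) = (a : Ω) * b
      rw [map_mul, ha, hb]
  exact h2 _ h1

variable (k : Type) [Field k] [CharZero k] {Ω : Type} [Field Ω] [Algebra k Ω] [IsAlgClosed Ω]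
  (K : IntermediateField k Ω)

theorem gal_fixF [Algebra.IsAlgebraic K Ω] (D : Subgroup (kbar k Ω ≃ₐ[k] kbar k Ω))
    (hD : IsClosed (D : Set (kbar k Ω ≃ₐ[k] kbar k Ω))) (S : D →* (Ω ≃ₐ[K] Ω))
    (hS : FSec k K D S) (g : Ω ≃ₐ[K] Ω) (hg : ∀ x ∈ fixF k K S, g x = x) :
    ∃ γ : D, S γ = g := by
  have hcK : CharZero K := charZero_of_injective_algebraMap (algebraMap k K).injective
  have hclK : IsAlgClosure K Ω := ⟨inferInstance, inferInstance⟩
  have hgalK : IsGalois K Ω := inferInstance
  have hclk : IsAlgClosure k (kbar k Ω) := inferInstance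
  have hgalk : IsGalois k (kbar k Ω) := inferInstance
  have hcomp : CompactSpace D := isCompact_iff_compactSpace.1 hD.isCompact
  have hcont : Continuous S := by
    refine continuous_of_continuousAt_one S ?_
    rw [ContinuousAt, map_one]
    intro s hs
    rw [krullTopology_mem_nhds_one_iff] at hs
    obtain ⟨E, hE, hEs⟩ := hs
    obtain ⟨α, -, hα⟩ := m2_mem E
    have h1 : {γ : D | S γ α = α} ∈ nhds (1 : D) := (hS.cont α).mem_nhds (by
      change S 1 α = α
      rw [map_one]
      rfl)
    exact Filter.mem_of_superset h1 fun γ hγ => hEs (hα _ hγ)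
  have hclosed : IsClosed (S.range : Set (Ω ≃ₐ[K] Ω)) := by
    rw [MonoidHom.coe_range]
    exact (isCompact_range hcont).isClosed
  let R : ClosedSubgroup (Ω ≃ₐ[K] Ω) := ⟨S.range, hclosed⟩
  have h1 := InfiniteGalois.fixingSubgroup_fixedField R
  have h2 : g ∈ (IntermediateField.fixedField (R : Subgroup (Ω ≃ₐ[K] Ω))).fixingSubgroup := by
    rw [IntermediateField.mem_fixingSubgroup_iff]
    intro x hx
    rw [IntermediateField.mem_fixedField_iff] at hx
    exact hg x fun γ => hx _ ⟨γ, rfl⟩
  rw [h1] at h2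
  exact h2

theorem exists_restrict {G : Type} [Group G] (M E : IntermediateField K Ω) [Normal K M]
    (hME : M ≤ E) (s : G →* (E ≃ₐ[K] E)) :
    ∃ h : G →* (M ≃ₐ[K] M), ∀ (γ : G) (θ : Ω) (h1 : θ ∈ M) (h2 : θ ∈ E),
      ((h γ ⟨θ, h1⟩ : M) : Ω) = ((s γ ⟨θ, h2⟩ : E) : Ω) := by
  let _ : Algebra M E := (IntermediateField.inclusion hME).toRingHom.toAlgebra
  have htow : IsScalarTower K M E := IsScalarTower.of_algebraMap_eq fun x => rfl
  refine ⟨(AlgEquiv.restrictNormalHom M).comp s, ?_⟩
  intro γ θ h1 h2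
  have h3 := AlgEquiv.restrictNormal_commutes (s γ) M ⟨θ, h1⟩
  exact congrArg Subtype.val h3

theorem exists_restrict_full {G : Type} [Group G] (M : IntermediateField K Ω) [Normal K M]
    (s : G →* (Ω ≃ₐ[K] Ω)) :
    ∃ h : G →* (M ≃ₐ[K] M), ∀ (γ : G) (θ : M), ((h γ θ : M) : Ω) = s γ (θ : Ω) := by
  refine ⟨(AlgEquiv.restrictNormalHom M).comp s, ?_⟩
  intro γ θ
  exact AlgEquiv.restrictNormal_commutes (s γ) M θ

end Pool.Agent.SB
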