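import Pool.Agent.Helper79.SG.Iface
import Pool.Agent.Helper79.SG.M2
import Pool.Agent.Helper1.SR.Iface
import Pool.Agent.Helper60.SL.FixLC

set_option autoImplicit false

/-!
# SB-G-07: values of a class at the point of a place (uniform in the place)

Notation: `K = funField k ξ`, `W = kbar k Ω`, `F = decField j` (an intermediate field of `W/k`, used as a type), `G_F = F.fixingSubgroup`, `L = fixF k K S`.
`F → E`: for `a ∈ F` the unique `b ∈ E` with `algebraMap b = j a` (a `k`-algebra homomorphism `ι`, as in `Helper60.SL.exists_loc`); make it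
an `Algebra F E` locally.  `F ⊆ L`: `S γ a = γ a = a` for `a ∈ F`, `γ ∈ G_F` (`hS.ind`); `Algebra F L`.  `φ` extends `ι` (`hφ`), in particular it is
`k`-linear: `exists_point` gives `x` with `OnX` and the value property.  Let `α, A, D` be given.
`ρ : Gal(Ω/L) →* Gal(W/F)`: restriction of automorphisms to `W` (`W` is normal over `k`); it fixes `F ⊆ L`.  Every `g ∈ Gal(Ω/L)` is `S γ` for some
`γ ∈ G_F` (`gal_fixF`; `G_F` is closed), and then `ρ g = γ` by `hS.ind`.
CASE 1.  `h1 : Gal(W/F) →* Gal(D.E/K)`, `h1 g = h (g.restrictScalars k)`.  `form_base`: `Form D F W h1 (F ⊗[k] B)`; `F ⊗[k] B` is Azumaya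
(`az_baseChange'` of Helper1/SR/AzBase or Helper8).  `form_compare D F W L ρ h1`: hypothesis `hh`: `g = S γ`, `h1 (ρ g) e = h γ e = S γ e = g e`.
So `BrEq L (L ⊗[K] A) (L ⊗[F] (F ⊗[k] B))`; `exists_point` with `B := F ⊗[k] B`, `B' := B`, and
`E ⊗[F] (F ⊗[k] B) ≃ E ⊗[k] B` (`Algebra.TensorProduct.cancelBaseChange` or `brEq_tower` of Helper1).
CASE 2.  Let `h2 : Gal(W/F) →* Gal(D.E/K)`, `h2 g = (H' g).g`, good (`cont` from the open kernel of `H'`; `cyc`: for `e = ζ ∈ W`: `S γ ζ = γ ζ`).
`form_exists` gives `B2` over `F` with `Form D F W h2 B2`; `form_split` with `H'`: `BrEq F B2 F`.  `form_compare` with `h2`: `BrEq L (L ⊗[K] A) (L ⊗[F] B2)`.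
`form_split` for `F ⊗[k] B`, `h1`, `H`: `BrEq F (F ⊗[k] B) F`.  So `E ⊗[F] B2 ~ E ~ E ⊗[F] (F ⊗[k] B) ~ E ⊗[k] B`.  `exists_point` with `B := B2`, `B' := B`.
Open kernels and helper1's `LC`: a homomorphism on `Gal(W/F)` with open kernel is constant on the cosets of the fixing subgroup of a finite extension.
(`IntermediateField.fixingSubgroupEquiv F : F.fixingSubgroup ≃* (W ≃ₐ[F] W)` is a homeomorphism; helper60's T1F.lean / FixLC.lean have the translation.)
-/

open MvPolynomial IntermediateField NumberField IsDedekindDomain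
open scoped TensorProduct

namespace Pool.Agent.SB

open Pool.Agent.Helper8.BR Pool.Agent.Helper1.SR
open Pool.Agent.Helper60.SL (galHom lc_iff_open)

section m3

private theorem m3_base {K Om : Type} [Field K] [Field Om] [Algebra K Om] {A : Type} [Ring A]
    [Algebra K A] (D : Datum K Om A) (k F W E : Type) [Field k] [Field F] [Field W] [Field E]
    [Algebra k W] [Algebra k F] [Algebra F W] [IsScalarTower k F W] [Algebra W Om] [Algebra k E]
    [Algebra F E] [IsScalarTower k F E] (h : (W ≃ₐ[k] W) →* (D.E ≃ₐ[K] D.E))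
    (h1 : (W ≃ₐ[F] W) →* (D.E ≃ₐ[K] D.E)) (hh : ∀ g : W ≃ₐ[F] W, h1 g = h (g.restrictScalars k))
    (B : Type) [Ring B] [Algebra k B] [IsAzumaya k B] (hB : Form D k W h B) :
    ∃ (B1 : Type) (_ : Ring B1) (_ : Algebra F B1), IsAzumaya F B1 ∧ Form D F W h1 B1 ∧
      BrEq E (E ⊗[F] B1) (E ⊗[k] B) :=
  ⟨F ⊗[k] B, inferInstance, inferInstance, Pool.Agent.Helper8.BR.az_baseChange k F B,
    form_base D k F W h h1 hh B hB, brEq_tower k F E B⟩

private theorem m3_iota {k : Type} [Field k] {W : Type} [Field W] [Algebra k W] {E : Type}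
    [Field E] [Algebra k E] (j : W →ₐ[k] AlgebraicClosure E) :
    ∃ ι : decField j →ₐ[k] E, ∀ a : decField j,
      algebraMap E (AlgebraicClosure E) (ι a) = j (a : W) := by
  have h0 : ∀ a : decField j, ∃ b : E, algebraMap E (AlgebraicClosure E) b = j (a : W) :=
    fun a => (mem_decField j (a : W)).1 a.2
  choose f hf using h0
  have hinj := (algebraMap E (AlgebraicClosure E)).injective
  refine ⟨{ toFun := f, map_one' := hinj ?_, map_mul' := fun a b => hinj ?_, map_zero' := hinj ?_,
            map_add' := fun a b => hinj ?_, commutes' := fun r => hinj ?_ }, hf⟩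
  · rw [hf, map_one]; exact map_one j
  · rw [hf, map_mul, hf, hf]; exact map_mul j _ _
  · rw [hf, map_zero]; exact map_zero j
  · rw [hf, map_add, hf, hf]; exact map_add j _ _
  · rw [hf]
    refine (j.commutes r).trans ?_
    rw [← IsScalarTower.algebraMap_apply]

variable (k : Type) [Field k] [CharZero k] {Ω : Type} [Field Ω] [Algebra k Ω] [IsAlgClosed Ω]
  (K : IntermediateField k Ω)

private theorem m3_memL (F : IntermediateField k (kbar k Ω))
    (S : F.fixingSubgroup →* (Ω ≃ₐ[K] Ω)) (hS : FSec k K F.fixingSubgroup S) (a : F) :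
    ((a : kbar k Ω) : Ω) ∈ fixF k K S := by
  intro γ
  rw [hS.ind γ (a : kbar k Ω)]
  exact congrArg (fun t : kbar k Ω => (t : Ω))
    ((IntermediateField.mem_fixingSubgroup_iff _ _).1 γ.2 _ a.2)

private theorem m3_toL (F : IntermediateField k (kbar k Ω))
    (S : F.fixingSubgroup →* (Ω ≃ₐ[K] Ω)) (hS : FSec k K F.fixingSubgroup S) :
    ∃ f : F →+* fixF k K S, ∀ a : F, ((f a : fixF k K S) : Ω) = ((a : kbar k Ω) : Ω) :=
  ⟨((algebraMap (kbar k Ω) Ω).comp (algebraMap F (kbar k Ω))).codRestrict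
    (fixF k K S).toSubfield.toSubring (fun a => m3_memL k K F S hS a), fun _ => rfl⟩

private theorem m3_rho [Algebra.IsAlgebraic K Ω] (F : IntermediateField k (kbar k Ω))
    (L : IntermediateField K Ω) (hFL : ∀ a : F, ((a : kbar k Ω) : Ω) ∈ L) :
    ∃ ρ : (Ω ≃ₐ[L] Ω) →* F.fixingSubgroup, ∀ (g : Ω ≃ₐ[L] Ω) (x : kbar k Ω),
      (((ρ g : kbar k Ω ≃ₐ[k] kbar k Ω) x : kbar k Ω) : Ω) = g (x : Ω) := by
  have hclk : IsAlgClosure k (kbar k Ω) := inferInstance
  have hgalk : IsGalois k (kbar k Ω) := inferInstance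
  let r : (Ω ≃ₐ[L] Ω) →* (kbar k Ω ≃ₐ[k] kbar k Ω) :=
    (AlgEquiv.restrictNormalHom (kbar k Ω)).comp
      ((AlgEquiv.restrictScalarsHom k).comp (AlgEquiv.restrictScalarsHom K))
  have hr : ∀ (g : Ω ≃ₐ[L] Ω) (x : kbar k Ω), ((r g x : kbar k Ω) : Ω) = g (x : Ω) := by
    intro g x
    exact AlgEquiv.restrictNormal_commutes
      (AlgEquiv.restrictScalarsHom k (AlgEquiv.restrictScalarsHom K g)) (kbar k Ω) x
  refine ⟨r.codRestrict F.fixingSubgroup fun g => ?_, fun g x => hr g x⟩
  rw [IntermediateField.mem_fixingSubgroup_iff]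
  intro x hx
  apply Subtype.ext
  rw [hr]
  exact g.commutes (⟨(x : Ω), hFL ⟨x, hx⟩⟩ : L)

open Classical in
private theorem m3_compare [Algebra.IsAlgebraic K Ω] (F : IntermediateField k (kbar k Ω))
    (S : F.fixingSubgroup →* (Ω ≃ₐ[K] Ω)) (hS : FSec k K F.fixingSubgroup S)
    [Algebra F (fixF k K S)]
    (hFL : ∀ a : F, ((algebraMap F (fixF k K S) a : fixF k K S) : Ω) = ((a : kbar k Ω) : Ω))
    {A : Type} [Ring A] [Algebra K A] [IsAzumaya K A] (D : Datum K Ω A)
    (h1 : (kbar k Ω ≃ₐ[F] kbar k Ω) →* (D.E ≃ₐ[K] D.E))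
    (hh : ∀ (γ : F.fixingSubgroup) (θ : D.E),
      ((h1 (IntermediateField.fixingSubgroupEquiv F γ) θ : D.E) : Ω) = S γ (θ : Ω))
    (B : Type) [Ring B] [Algebra F B] [IsAzumaya F B] (hB : Form D F (kbar k Ω) h1 B) :
    BrEq (fixF k K S) (fixF k K S ⊗[K] A) (fixF k K S ⊗[F] B) := by
  have hcK : CharZero K := charZero_of_injective_algebraMap (algebraMap k K).injective
  have halg : Algebra.IsAlgebraic (fixF k K S) Ω := Algebra.IsAlgebraic.tower_top (K := K) _
  obtain ⟨ρ, hρ⟩ := m3_rho k K F (fixF k K S) (m3_memL k K F S hS)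
  have hclk : IsAlgClosure k (kbar k Ω) := inferInstance
  have hgalk : IsGalois k (kbar k Ω) := inferInstance
  have hclosed : IsClosed (F.fixingSubgroup : Set (kbar k Ω ≃ₐ[k] kbar k Ω)) :=
    InfiniteGalois.fixingSubgroup_isClosed F
  have t1 : IsScalarTower F (kbar k Ω) Ω := inferInstance
  have t2 : IsScalarTower F (fixF k K S) Ω := IsScalarTower.of_algebraMap_eq fun a => (hFL a).symm
  refine form_compare D F (kbar k Ω) (fixF k K S)
    ((IntermediateField.fixingSubgroupEquiv F).toMonoidHom.comp ρ) (fun g x => hρ g x) h1 ?_ B hB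
  intro g e
  obtain ⟨γ, hγ⟩ := gal_fixF k K F.fixingSubgroup hclosed S hS (g.restrictScalars K)
    (fun x hx => g.commutes (⟨x, hx⟩ : fixF k K S))
  have h2 : ρ g = γ := by
    apply Subtype.ext
    apply AlgEquiv.ext
    intro x
    apply Subtype.ext
    rw [hρ g x, ← hS.ind γ x, hγ]
    rfl
  have h3 : (((IntermediateField.fixingSubgroupEquiv F).toMonoidHom.comp ρ) g) =
      IntermediateField.fixingSubgroupEquiv F γ := by
    rw [← h2]
    rfl
  rw [h3, hh γ e, hγ]
  rfl

end m3

theorem place_value (k : Type) [Field k] [NumberField k] {Ω : Type} [Field Ω] [Algebra k Ω]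
    [IsAlgClosed Ω] {n : ℕ} (ξ : Fin (n + 1) → Ω) (hξ : ξ ≠ 0)
    [Algebra.IsAlgebraic (funField k ξ) Ω] (E : Type) [Field E] [Algebra k E]
    (j : kbar k Ω →ₐ[k] AlgebraicClosure E)
    (S : (decField j).fixingSubgroup →* (Ω ≃ₐ[funField k ξ] Ω))
    (hS : FSec k (funField k ξ) (decField j).fixingSubgroup S)
    (O : ValuationSubring (fixF k (funField k ξ) S)) (φ : O →+* E)
    (hφ : ∀ (a : kbar k Ω) (_ : a ∈ decField j) (h : (a : Ω) ∈ fixF k (funField k ξ) S),
        ∃ h' : (⟨(a : Ω), h⟩ : fixF k (funField k ξ) S) ∈ O,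
          algebraMap E (AlgebraicClosure E) (φ ⟨⟨(a : Ω), h⟩, h'⟩) = j a) :
    ∃ x : Fin (n + 1) → E, OnX k ξ x ∧
      ∀ (α : BrClass k ξ) (A : Type) [Ring A] [Algebra (funField k ξ) A]
        [IsAzumaya (funField k ξ) A], GenRep k α A → ∀ (D : Datum (funField k ξ) Ω A)
        (h : (kbar k Ω ≃ₐ[k] kbar k Ω) →* (D.E ≃ₐ[funField k ξ] D.E)),
        GoodHom D k (kbar k Ω) h → ∀ (B : Az k), Form D k (kbar k Ω) h B →
        ((∀ (γ : (decField j).fixingSubgroup) (θ : D.E),
            ((h (γ : kbar k Ω ≃ₐ[k] kbar k Ω) θ : D.E) : Ω) = S γ (θ : Ω)) ∨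
          ((∃ H : (decField j).fixingSubgroup →* Ghat D,
              IsOpen (H.ker : Set (decField j).fixingSubgroup) ∧
              ∀ γ, (H γ).g = h (γ : kbar k Ω ≃ₐ[k] kbar k Ω)) ∧
            ∃ H : (decField j).fixingSubgroup →* Ghat D,
              IsOpen (H.ker : Set (decField j).fixingSubgroup) ∧
              ∀ (γ : (decField j).fixingSubgroup) (θ : D.E),
                (((H γ).g θ : D.E) : Ω) = S γ (θ : Ω))) →
        ValueIs k α x B := by
  have hclk : IsAlgClosure k (kbar k Ω) := inferInstance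
  have hclk' : IsAlgClosed (kbar k Ω) := hclk.1
  have hgalk : IsGalois k (kbar k Ω) := inferInstance
  have hcK : CharZero (funField k ξ) :=
    charZero_of_injective_algebraMap (algebraMap k (funField k ξ)).injective
  have hinj := (algebraMap E (AlgebraicClosure E)).injective
  obtain ⟨ι, hι⟩ := m3_iota j
  obtain ⟨f, hf⟩ := m3_toL k (funField k ξ) (decField j) S hS
  obtain ⟨x, hx, hval⟩ := exists_point k ξ hξ (fixF k (funField k ξ) S) O φ (by
    intro a
    have ha : algebraMap k (kbar k Ω) a ∈ decField j := (decField j).algebraMap_mem a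
    have h1 := m3_memL k (funField k ξ) (decField j) S hS ⟨_, ha⟩
    obtain ⟨h', h2⟩ := hφ (algebraMap k (kbar k Ω) a) ha h1
    refine ⟨h1, h', hinj ?_⟩
    refine h2.trans ?_
    rw [j.commutes, ← IsScalarTower.algebraMap_apply])
  refine ⟨x, hx, ?_⟩
  intro α A _ _ _ hA D h hh B hB hcases
  let _ : Algebra (decField j) (fixF k (funField k ξ) S) := f.toAlgebra
  let _ : Algebra (decField j) E := ι.toRingHom.toAlgebra
  have tkE : IsScalarTower k (decField j) E :=
    IsScalarTower.of_algebraMap_eq fun a => (ι.commutes a).symm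
  have hev : ∀ a : decField j, ∃ h : algebraMap (decField j) (fixF k (funField k ξ) S) a ∈ O,
      φ ⟨algebraMap (decField j) (fixF k (funField k ξ) S) a, h⟩ = algebraMap (decField j) E a := by
    intro a
    have h1 := m3_memL k (funField k ξ) (decField j) S hS a
    obtain ⟨h', h2⟩ := hφ (a : kbar k Ω) a.2 h1
    have h3 : algebraMap (decField j) (fixF k (funField k ξ) S) a =
        (⟨((a : kbar k Ω) : Ω), h1⟩ : fixF k (funField k ξ) S) := Subtype.ext (hf a)
    have h4 : algebraMap (decField j) (fixF k (funField k ξ) S) a ∈ O := by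
      rw [h3]
      exact h'
    refine ⟨h4, hinj ?_⟩
    refine Eq.trans ?_ (hι a).symm
    rw [← h2]
    congr 2
    exact Subtype.ext h3
  -- the form over `F`
  let h1 : (kbar k Ω ≃ₐ[decField j] kbar k Ω) →* (D.E ≃ₐ[funField k ξ] D.E) :=
    h.comp (AlgEquiv.restrictScalarsHom k)
  obtain ⟨B1, _, _, hazB, hF1, htow⟩ :=
    m3_base D k (decField j) (kbar k Ω) E h h1 (fun g => rfl) B hB
  have hfix : ∀ γ : (decField j).fixingSubgroup,
      h1 (IntermediateField.fixingSubgroupEquiv (decField j) γ) = h (γ : kbar k Ω ≃ₐ[k] kbar k Ω) :=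
    fun γ => rfl
  rcases hcases with hc | ⟨⟨H, hHo, hHg⟩, ⟨H', hHo', hHg'⟩⟩
  · refine hval α A hA (decField j) hev B1 ?_ B htow
    refine m3_compare k (funField k ξ) (decField j) S hS hf D h1 ?_ _ hF1
    intro γ θ
    rw [hfix]
    exact hc γ θ
  · -- the lifts as homomorphisms of `Gal(W/F)`
    have hlc : LC (decField j) (kbar k Ω) (galHom (decField j) H) := (lc_iff_open _ H).2 hHo
    have hlc' : LC (decField j) (kbar k Ω) (galHom (decField j) H') := (lc_iff_open _ H').2 hHo'
    let h2 : (kbar k Ω ≃ₐ[decField j] kbar k Ω) →* (D.E ≃ₐ[funField k ξ] D.E) :=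
      (Ghat.pr D).comp (galHom (decField j) H')
    have hgal : ∀ (Q : Type) [Group Q] (f : (decField j).fixingSubgroup →* Q)
        (γ : (decField j).fixingSubgroup),
        galHom (decField j) f (IntermediateField.fixingSubgroupEquiv (decField j) γ) = f γ :=
      fun Q _ f γ => congrArg f
        ((IntermediateField.fixingSubgroupEquiv (decField j)).symm_apply_apply γ)
    have hh2 : ∀ (γ : (decField j).fixingSubgroup) (θ : D.E),
        ((h2 (IntermediateField.fixingSubgroupEquiv (decField j) γ) θ : D.E) : Ω) =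
          S γ (θ : Ω) := by
      intro γ θ
      have e1 : h2 (IntermediateField.fixingSubgroupEquiv (decField j) γ) = (H' γ).g := by
        change Ghat.pr D (galHom (decField j) H' _) = _
        rw [hgal]
        rfl
      rw [e1]
      exact hHg' γ θ
    have good2 : GoodHom D (decField j) (kbar k Ω) h2 := by
      constructor
      · obtain ⟨N', hN', hl⟩ := hlc'
        exact ⟨N', hN', fun g g' hgg => congrArg (Ghat.pr D) (hl g g' hgg)⟩
      · intro g ζ e hζ he
        obtain ⟨γ, rfl⟩ := (IntermediateField.fixingSubgroupEquiv (decField j)).surjective g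
        rw [hh2 γ e, he]
        exact hS.ind γ ζ
    have good1 : GoodHom D (decField j) (kbar k Ω) h1 := by
      have hH1 : ∀ g, (galHom (decField j) H g).g = h1 g := by
        intro g
        obtain ⟨γ, rfl⟩ := (IntermediateField.fixingSubgroupEquiv (decField j)).surjective g
        rw [hgal, hHg, hfix]
      constructor
      · obtain ⟨N', hN', hl⟩ := hlc
        refine ⟨N', hN', fun g g' hgg => ?_⟩
        rw [← hH1 g, ← hH1 g', hl g g' hgg]
      · intro g ζ e hζ he
        exact hh.cyc (AlgEquiv.restrictScalarsHom k g) ζ e hζ he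
    obtain ⟨B2, hB2⟩ := form_exists D (decField j) (kbar k Ω) h2 good2
    have s2 : BrEq (decField j) B2 (decField j) :=
      form_split D (decField j) (kbar k Ω) h2 good2 (galHom (decField j) H') hlc'
        (fun g => rfl) B2 hB2
    have s1 : BrEq (decField j) B1 (decField j) :=
      form_split D (decField j) (kbar k Ω) h1 good1 (galHom (decField j) H) hlc
        (fun g => by
          obtain ⟨γ, rfl⟩ := (IntermediateField.fixingSubgroupEquiv (decField j)).surjective g
          rw [hgal, hHg, hfix]) _ hF1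
    refine hval α A hA (decField j) hev B2 ?_ B ?_
    · exact m3_compare k (funField k ξ) (decField j) S hS hf D h2 hh2 B2 hB2
    · exact ((s2.trans s1.symm).baseChange E).trans htow

end Pool.Agent.SB
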