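import Pool.Agent.Helper79.SG.Iface
import Pool.Agent.Helper79.SG.M1
import Pool.Agent.Helper79.SG.M2
import Pool.Agent.Helper79.SG.M3
import Pool.Agent.Helper60.SL.T1F
import Pool.Agent.Helper60.SL.Arch
import Pool.Agent.Helper1.SR.Iface

set_option autoImplicit false

/-!
# PROJECT SB: the main theorem, assembled from the blocks
-/

open MvPolynomial IntermediateField NumberField IsDedekindDomain
open scoped TensorProduct

namespace Pool.Agent.SB

open Pool.Agent.Helper8.BR Pool.Agent.Helper1.SR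

section

theorem exists_emb {k : Type} [Field k] {Ω : Type} [Field Ω] [Algebra k Ω]
    (E : Type) [Field E] [Algebra k E] :
    Nonempty (kbar k Ω →ₐ[k] AlgebraicClosure E) :=
  ⟨IsAlgClosed.lift⟩

/-- a homomorphism with open stabilisers to the Galois group of a finite extension is locally
constant -/
theorem lc_of_stab {k : Type} [Field k] [NumberField k] {W : Type} [Field W] [Algebra k W]
    {K E : Type} [Field K] [Field E] [Algebra K E] [FiniteDimensional K E]
    (h : (W ≃ₐ[k] W) →* (E ≃ₐ[K] E)) (hst : ∀ θ : E, IsOpen {γ | h γ θ = θ}) : LC k W h := by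
  classical
  let b := Module.finBasis K E
  have hker : IsOpen ((h.ker : Subgroup (W ≃ₐ[k] W)) : Set (W ≃ₐ[k] W)) := by
    have he : ((h.ker : Subgroup (W ≃ₐ[k] W)) : Set (W ≃ₐ[k] W)) =
        ⋂ i, {γ | h γ (b i) = b i} := by
      ext γ
      simp only [SetLike.mem_coe, MonoidHom.mem_ker, Set.mem_iInter, Set.mem_ofPred_eq]
      constructor
      · intro hγ i
        rw [hγ]
        rfl
      · intro hγ
        have h1 : (h γ).toLinearMap = LinearMap.id := b.ext fun i => by
          simpa using hγ i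
        exact AlgEquiv.ext fun x => by
          have := LinearMap.congr_fun h1 x
          simpa using this
    rw [he]
    exact isOpen_iInter_of_finite fun i => hst (b i)
  have h2 : ((h.ker : Subgroup (W ≃ₐ[k] W)) : Set (W ≃ₐ[k] W)) ∈ nhds (1 : W ≃ₐ[k] W) :=
    hker.mem_nhds (one_mem _)
  rw [krullTopology_mem_nhds_one_iff] at h2
  obtain ⟨N', hN', hsub⟩ := h2
  refine ⟨N', hN', fun g g' hg => ?_⟩
  have h3 : g⁻¹ * g' ∈ h.ker := by
    apply hsub
    rw [SetLike.mem_coe, IntermediateField.mem_fixingSubgroup_iff]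
    intro x hx
    rw [AlgEquiv.mul_apply, ← hg x hx]
    exact AlgEquiv.symm_apply_apply g x
  rw [MonoidHom.mem_ker, map_mul, map_inv, inv_mul_eq_one] at h3
  exact h3

end

section

variable {k : Type} [Field k] [NumberField k] {Ω : Type} [Field Ω] [Algebra k Ω] [IsAlgClosed Ω]
  {n : ℕ} {ξ : Fin (n + 1) → Ω}

/-- agreement of the limit section with the sections -/
def Agr (K : IntermediateField k Ω) {I : Type} (U : Filter I) (E : I → IntermediateField K Ω)
    {G : Type} [Group G] (s : ∀ i, G →* (E i ≃ₐ[K] E i)) (S : G →* (Ω ≃ₐ[K] Ω)) : Prop :=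
  ∀ M : IntermediateField K Ω, FiniteDimensional K M →
        ∀ᶠ i in U, ∀ (γ : G) (θ : E i), (θ : Ω) ∈ M →
          S γ (θ : Ω) = ((s i γ θ : E i) : Ω)

/-- the value of a class at a point with a section -/
def ValProp (ξ : Fin (n + 1) → Ω) (E : Type) [Field E] [Algebra k E]
    (x : Fin (n + 1) → E) (G : Subgroup (kbar k Ω ≃ₐ[k] kbar k Ω))
    (S : G →* (Ω ≃ₐ[funField k ξ] Ω)) : Prop :=
  ∀ (α : BrClass k ξ) (A : Type) [Ring A] [Algebra (funField k ξ) A]
        [IsAzumaya (funField k ξ) A], GenRep k α A → ∀ (D : Datum (funField k ξ) Ω A)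
        (h : (kbar k Ω ≃ₐ[k] kbar k Ω) →* (D.E ≃ₐ[funField k ξ] D.E)),
        GoodHom D k (kbar k Ω) h → ∀ (B : Az k), Form D k (kbar k Ω) h B →
        ((∀ (γ : G) (θ : D.E),
            ((h (γ : kbar k Ω ≃ₐ[k] kbar k Ω) θ : D.E) : Ω) = S γ (θ : Ω)) ∨
          ((∃ H : G →* Ghat D, IsOpen (H.ker : Set G) ∧
              ∀ γ, (H γ).g = h (γ : kbar k Ω ≃ₐ[k] kbar k Ω)) ∧
            ∃ H : G →* Ghat D, IsOpen (H.ker : Set G) ∧
              ∀ (γ : G) (θ : D.E), (((H γ).g θ : D.E) : Ω) = S γ (θ : Ω))) →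
        ValueIs k α x B

/-- the sections attached to the normal open sets -/
abbrev Secs (k : Type) [Field k] {Ω : Type} [Field Ω] [Algebra k Ω] {n : ℕ}
    (ξ : Fin (n + 1) → Ω) : Type :=
  ∀ i : Idx k ξ, (kbar k Ω ≃ₐ[k] kbar k Ω) →*
      (etCover k ξ i.e i.g ≃ₐ[funField k ξ] etCover k ξ i.e i.g)

/-- the point `x` over the place `E` comes from the limit section -/
def GoodPt (U : Ultrafilter (Idx k ξ)) (s : Secs k ξ)
    (E : Type) [Field E] [Algebra k E] (j : kbar k Ω →ₐ[k] AlgebraicClosure E)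
    (x : Fin (n + 1) → E) : Prop :=
  OnX k ξ x ∧ ∃ S : (decField j).fixingSubgroup →* (Ω ≃ₐ[funField k ξ] Ω),
    Agr (funField k ξ) (U : Filter (Idx k ξ)) (fun i : Idx k ξ => etCover k ξ i.e i.g)
      (fun i : Idx k ξ => (s i).comp (decField j).fixingSubgroup.subtype) S ∧
    ValProp ξ E x (decField j).fixingSubgroup S

theorem exists_goodPt (hξ : ξ ≠ 0) [Algebra.IsAlgebraic (funField k ξ) Ω]
    (U : Ultrafilter (Idx k ξ))
    (hU : ∀ (e : ℕ) (g : MvPolynomial (Fin (n + 1)) k), Adm k ξ e g →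
      ∀ᶠ i in (U : Filter (Idx k ξ)), etCover k ξ e g ≤ etCover k ξ i.e i.g)
    (s : Secs k ξ) (hs : ∀ i : Idx k ξ, IsSplitting k ξ i.e i.g (s i))
    (E : Type) [Field E] [Algebra k E] (j : kbar k Ω →ₐ[k] AlgebraicClosure E)
    (hfin : ∀ (Q : Type) [Group Q] [Finite Q], {f : (decField j).fixingSubgroup →* Q |
      IsOpen (f.ker : Set (decField j).fixingSubgroup)}.Finite)
    (hplace : ∀ (S : (decField j).fixingSubgroup →* (Ω ≃ₐ[funField k ξ] Ω)),
      FSec k (funField k ξ) (decField j).fixingSubgroup S →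
      ∃ (O : ValuationSubring (fixF k (funField k ξ) S)) (φ : O →+* E),
      ∀ (a : kbar k Ω) (_ : a ∈ decField j) (h : (a : Ω) ∈ fixF k (funField k ξ) S),
        ∃ h' : (⟨(a : Ω), h⟩ : fixF k (funField k ξ) S) ∈ O,
          algebraMap E (AlgebraicClosure E)
            (φ ⟨⟨(a : Ω), h⟩, h'⟩) = j a) :
    ∃ x : Fin (n + 1) → E, GoodPt U s E j x := by
  obtain ⟨S, hS, hagree⟩ := exists_limit (funField k ξ) (decField j).fixingSubgroup hfin U
    (fun i : Idx k ξ => etCover k ξ i.e i.g) (fun i : Idx k ξ => etCover_normal k i.adm)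
    (fun θ => by
      have : FiniteDimensional (funField k ξ) (funField k ξ)⟮θ⟯ :=
        adjoin.finiteDimensional (Algebra.IsAlgebraic.isAlgebraic θ).isIntegral
      filter_upwards [eventually_le k ξ hξ U hU (funField k ξ)⟮θ⟯] with i hi
      exact hi (mem_adjoin_simple_self _ θ))
    (fun i : Idx k ξ => (s i).comp (decField j).fixingSubgroup.subtype)
    (fun i : Idx k ξ => ksec_of_splitting k ξ (s i) (hs i) (decField j).fixingSubgroup)
  obtain ⟨O, φ, hφ⟩ := hplace S hS
  obtain ⟨x, hx, hval⟩ := place_value k ξ hξ E j S hS O φ hφ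
  exact ⟨x, hx, S, hagree, hval⟩

end

end Pool.Agent.SB
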