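import Mathlib

set_option autoImplicit false

/-!
# SB-G-01: transfer: a homomorphism lifts to an extension by an abelian group if it lifts on
subgroups of coprime index

`pr : X →* Q` a homomorphism of finite groups, `A = pr.ker` commutative of exponent dividing `d`, `t : G →* Q` with
image in `pr.range`.  For every prime `ℓ ∣ d` there are a subgroup `H_ℓ ≤ G` of finite index prime to `ℓ` and `θ_ℓ : H_ℓ →* X` lifting
`t`.  Then there is `θ : G →* X` lifting `t`; everything locally constant.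
PROOF.  Choose a set theoretic section `m : Q → X` of `pr` on `pr.range`, and write `a(g) = m (t g) ∈ X`.  `G` acts on `A` by
conjugation by `a(g)` (well defined, `A` commutative): `^g z`.  `c(g, h) = a(g) a(h) a(gh)⁻¹ ∈ A` is a 2-cocycle:
`^g c(h, l) c(g, hl) = c(g, h) c(gh, l)`.  A lift of `t` on a subgroup `H` is the same as `b : H → A` with
`b(h) ^h b(h') c(h, h') = b(h h')` (`θ(h) = b(h) a(h)`).
STEP 1 (transfer).  If `H` has finite index `n` and there is `b` on `H`, then there is `U : G → A` with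
`U(g) ^g U(g') = c(g, g')^n U(g g')`.  Choose representatives `T` of `H \ G` (every `x ∈ G` is `h t` uniquely).  Put
`u(h t) = b(h) c(h, t)⁻¹`; then `b(h) ^h u(x) = c(h, x) u(h x)` for all `h ∈ H`, `x ∈ G` (cocycle identity).  Put
`D(g)(x) = c(x, g) u(x g) u(x)⁻¹`.  Then `D(g)(h x) = ^h D(g)(x)`, so `^(x⁻¹) D(g)(x)` depends only on `H x`, and
`D(g)(x) D(g')(x g) = ^x c(g, g') D(g g')(x)`.  `U(g) = ∏_{x ∈ T} ^(x⁻¹) D(g)(x)`; as `x ↦ x g` permutes `H \ G`:
`∏ ^(x⁻¹) D(g')(x g) = ^g U(g')`.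
STEP 2.  With indices `n_ℓ` prime to `ℓ` for all primes `ℓ ∣ d`: `1 = m d + ∑ m_ℓ n_ℓ` for integers (gcd of `d` and the `n_ℓ` is `1`).
`c^d = 1`.  So `V(g) = ∏ U_ℓ(g)^(m_ℓ)` satisfies `V(g) ^g V(g') = c(g, g') V(g g')`, and `b(g) = V(g)⁻¹` gives the lift
`θ(g) = V(g)⁻¹ a(g)` on `G`: `θ(g) θ(g') = V(g)⁻¹ (^g V(g'))⁻¹ c(g,g') a(g g') = V(g g')⁻¹ a(g g')`.
STEP 3 (local constancy).  Let `N` be an open normal subgroup of `G` contained in the kernel of `t`, in all `H_ℓ` and in the kernels of all `θ_ℓ`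
(finitely many open subgroups of finite index; normal core; `G` compact, or: work from the start with the FINITE
quotient `G / N`: all data factor through `G/N`, apply Steps 1, 2 to the finite group `G/N`, then compose with `G → G/N`;
this is the easiest way: prove the algebraic statement for a finite group first).
-/

namespace Pool.Agent.SB

section cochain

variable {G A : Type} [Group G] [CommGroup A] (φ : G →* MulAut A) (c : G → G → A)

private theorem tr_u (hc : ∀ g h l, φ g (c h l) * c g (h * l) = c g h * c (g * h) l)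
    (H : Subgroup G) (b : H → A)
    (hb : ∀ h h' : H, b h * φ h (b h') * c h h' = b (h * h')) :
    ∃ u : G → A, ∀ (h : H) (x : G), u (h * x) = b h * φ h (u x) * c h x := by
  let r : G → G := fun x => Quotient.out (Quotient.mk (QuotientGroup.rightRel H) x)
  have hr : ∀ x, x * (r x)⁻¹ ∈ H := fun x => by
    have h1 : (QuotientGroup.rightRel H) (r x) x := Quotient.mk_out x
    exact QuotientGroup.rightRel_apply.1 h1
  have hrh : ∀ (h : H) (x : G), r (h * x) = r x := fun h x => by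
    have h1 : Quotient.mk (QuotientGroup.rightRel H) (h * x) =
        Quotient.mk (QuotientGroup.rightRel H) x := by
      apply Quotient.sound
      refine QuotientGroup.rightRel_apply.2 ?_
      rw [mul_inv_rev, ← mul_assoc, mul_inv_cancel, one_mul]
      exact H.inv_mem h.2
    change Quotient.out _ = Quotient.out _
    rw [h1]
  refine ⟨fun x => b ⟨x * (r x)⁻¹, hr x⟩ * c (x * (r x)⁻¹) (r x), fun h x => ?_⟩
  have h1 : (⟨(h : G) * x * (r (h * x))⁻¹, hr _⟩ : H) = h * ⟨x * (r x)⁻¹, hr x⟩ := by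
    apply Subtype.ext
    change (h : G) * x * (r (h * x))⁻¹ = h * (x * (r x)⁻¹)
    rw [hrh, mul_assoc]
  have h2 : (h : G) * x * (r (h * x))⁻¹ = h * (x * (r x)⁻¹) := congrArg Subtype.val h1
  beta_reduce
  rw [h1, h2, hrh, ← hb, map_mul]
  have h3 := hc h (x * (r x)⁻¹) (r x)
  rw [inv_mul_cancel_right] at h3
  change b h * φ h (b ⟨x * (r x)⁻¹, hr x⟩) * c h (x * (r x)⁻¹) * c (h * (x * (r x)⁻¹)) (r x) =
    b h * (φ h (b ⟨x * (r x)⁻¹, hr x⟩) * φ h (c (x * (r x)⁻¹) (r x))) * c h x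
  rw [mul_assoc (b h * _) (c _ _), ← h3]
  simp only [mul_assoc]

private theorem tr_transfer (hc : ∀ g h l, φ g (c h l) * c g (h * l) = c g h * c (g * h) l)
    (H : Subgroup G) [H.FiniteIndex] (b : H → A)
    (hb : ∀ h h' : H, b h * φ h (b h') * c h h' = b (h * h')) :
    ∃ U : G → A, ∀ g g', U g * φ g (U g') = c g g' ^ H.index * U (g * g') := by
  obtain ⟨u, hu⟩ := tr_u φ c hc H b hb
  let D : G → G → A := fun g x => u x * c x g * (u (x * g))⁻¹
  have hD1 : ∀ (g : G) (h : H) (x : G), D g (h * x) = φ h (D g x) := fun g h x => by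
    change u (h * x) * c (h * x) g * (u (h * x * g))⁻¹ = φ h (u x * c x g * (u (x * g))⁻¹)
    rw [mul_assoc (h : G) x g, hu, hu, map_mul, map_mul, map_inv]
    have h3 := hc h x g
    have h4 : c (h * x) g = φ h (c x g) * c h (x * g) * (c h x)⁻¹ := by
      rw [h3, mul_comm (c (h : G) x), mul_inv_cancel_right]
    rw [h4]
    simp only [mul_inv_rev]
    have key : ∀ p q r s t v w : A, p * q * r * (s * t * r⁻¹) * (t⁻¹ * (v⁻¹ * p⁻¹)) = q * s * v⁻¹ := by
      intro p q r s t v w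
      calc p * q * r * (s * t * r⁻¹) * (t⁻¹ * (v⁻¹ * p⁻¹))
          = (p * p⁻¹) * (r * r⁻¹) * (t * t⁻¹) * (q * s * v⁻¹) := by
            simp only [mul_comm, mul_left_comm, mul_assoc]
        _ = q * s * v⁻¹ := by simp
    exact key _ _ _ _ _ _ 1
  have hD2 : ∀ g g' x : G, D g x * D g' (x * g) = φ x (c g g') * D (g * g') x := fun g g' x => by
    change u x * c x g * (u (x * g))⁻¹ * (u (x * g) * c (x * g) g' * (u (x * g * g'))⁻¹) =
      φ x (c g g') * (u x * c x (g * g') * (u (x * (g * g')))⁻¹)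
    rw [mul_assoc x g g']
    have h3 := hc x g g'
    have h4 : c (x * g) g' = φ x (c g g') * c x (g * g') * (c x g)⁻¹ := by
      rw [h3, mul_comm (c x g), mul_inv_cancel_right]
    rw [h4]
    have key : ∀ p q r s t v : A, p * q * r⁻¹ * (r * (s * t * q⁻¹) * v) = s * (p * t * v) := by
      intro p q r s t v
      calc p * q * r⁻¹ * (r * (s * t * q⁻¹) * v)
          = (q * q⁻¹) * (r * r⁻¹) * (s * (p * t * v)) := by
            simp only [mul_comm, mul_left_comm, mul_assoc]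
        _ = s * (p * t * v) := by simp
    exact key _ _ _ _ _ _
  -- functions on `G ⧸ H`
  let M : G → G ⧸ H → A := fun g => Quotient.lift (fun y => φ y (D g y⁻¹)) fun y y' hy => by
    have h1 : y⁻¹ * y' ∈ H := QuotientGroup.leftRel_apply.1 hy
    have h2 : y⁻¹ = ((⟨y⁻¹ * y', h1⟩ : H) : G) * y'⁻¹ := by
      change y⁻¹ = y⁻¹ * y' * y'⁻¹
      rw [mul_inv_cancel_right]
    have h3 : D g y⁻¹ = φ (y⁻¹ * y') (D g y'⁻¹) := by
      conv_lhs => rw [h2]
      exact hD1 g _ _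
    rw [h3, ← MulAut.mul_apply, ← map_mul, mul_inv_cancel_left]
  have hM : ∀ (g y : G), M g (QuotientGroup.mk y) = φ y (D g y⁻¹) := fun g y => rfl
  have hrel : ∀ (g g' : G) (q : G ⧸ H),
      M g q * φ g (M g' (g⁻¹ • q)) = c g g' * M (g * g') q := by
    intro g g' q
    induction q using QuotientGroup.induction_on with
    | H y =>
      have h1 : g⁻¹ • (QuotientGroup.mk y : G ⧸ H) = QuotientGroup.mk (g⁻¹ * y) := rfl
      rw [h1, hM, hM, hM, ← MulAut.mul_apply, ← map_mul, mul_inv_cancel_left, mul_inv_rev,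
        inv_inv, ← map_mul, hD2, map_mul, ← MulAut.mul_apply, ← map_mul, mul_inv_cancel, map_one]
      rfl
  have hfin : Fintype (G ⧸ H) := Subgroup.fintypeQuotientOfFiniteIndex
  refine ⟨fun g => ∏ q : G ⧸ H, M g q, fun g g' => ?_⟩
  have h1 : φ g (∏ q : G ⧸ H, M g' q) = ∏ q : G ⧸ H, φ g (M g' (g⁻¹ • q)) := by
    rw [map_prod]
    exact (Equiv.prod_comp (MulAction.toPerm g⁻¹ : Equiv.Perm (G ⧸ H))
      (fun q => φ g (M g' q))).symm
  beta_reduce
  rw [h1, ← Finset.prod_mul_distrib, Finset.prod_congr rfl fun q _ => hrel g g' q,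
    Finset.prod_mul_distrib, Finset.prod_const, Finset.card_univ, Subgroup.index_eq_card,
    Nat.card_eq_fintype_card]

/-- the combination of the transfers -/
private theorem tr_comb (hc : ∀ g h l, φ g (c h l) * c g (h * l) = c g h * c (g * h) l)
    (d : ℕ) (hcd : ∀ g h, c g h ^ d = 1)
    (hl : ∀ ℓ : ℕ, ℓ.Prime → ℓ ∣ d → ∃ (H : Subgroup G) (_ : H.FiniteIndex) (b : H → A),
      ¬ ℓ ∣ H.index ∧ ∀ h h' : H, b h * φ h (b h') * c h h' = b (h * h')) :
    ∃ b : G → A, ∀ g h, b g * φ g (b h) * c g h = b (g * h) := by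
  let I : AddSubgroup ℤ :=
    { carrier := {n | ∃ U : G → A, ∀ g g', U g * φ g (U g') = c g g' ^ n * U (g * g')}
      zero_mem' := ⟨fun _ => 1, fun g g' => by rw [zpow_zero, map_one]⟩
      add_mem' := by
        rintro n m ⟨U, hU⟩ ⟨V, hV⟩
        refine ⟨fun g => U g * V g, fun g g' => ?_⟩
        beta_reduce
        rw [map_mul, mul_mul_mul_comm, hU, hV, mul_mul_mul_comm, zpow_add]
      neg_mem' := by
        rintro n ⟨U, hU⟩
        refine ⟨fun g => (U g)⁻¹, fun g g' => ?_⟩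
        beta_reduce
        rw [map_inv, ← mul_inv, hU, mul_inv, zpow_neg] }
  obtain ⟨e, he⟩ := Int.subgroup_cyclic I
  have hmem : ∀ n : ℤ, n ∈ I ↔ e ∣ n := fun n => by
    rw [he, AddSubgroup.mem_closure_singleton]
    constructor
    · rintro ⟨k, rfl⟩
      exact ⟨k, by rw [smul_eq_mul, mul_comm]⟩
    · rintro ⟨k, rfl⟩
      exact ⟨k, by rw [smul_eq_mul, mul_comm]⟩
  have hdI : (d : ℤ) ∈ I := ⟨fun _ => 1, fun g g' => by rw [zpow_natCast, hcd, map_one]⟩
  have hed : e ∣ d := (hmem _).1 hdI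
  have he1 : e.natAbs = 1 := by
    by_contra hne
    obtain ⟨ℓ, hℓ, hℓe⟩ := Nat.exists_prime_and_dvd hne
    have h1 : e.natAbs ∣ d := Int.natAbs_dvd_natAbs.2 hed
    obtain ⟨H, hH, b, hi, hb⟩ := hl ℓ hℓ (hℓe.trans h1)
    obtain ⟨U, hU⟩ := tr_transfer φ c hc H b hb
    have h2 : (H.index : ℤ) ∈ I := ⟨U, fun g g' => by rw [zpow_natCast]; exact hU g g'⟩
    have h3 : e.natAbs ∣ H.index := Int.natAbs_dvd_natAbs.2 ((hmem _).1 h2)
    exact hi (hℓe.trans h3)
  have h1I : (1 : ℤ) ∈ I := (hmem 1).2 (Int.natAbs_dvd_natAbs.1 (by rw [he1]; rfl))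
  obtain ⟨U, hU⟩ := h1I
  refine ⟨fun g => (U g)⁻¹, fun g h => ?_⟩
  beta_reduce
  rw [map_inv, ← mul_inv, hU, zpow_one, mul_inv, mul_comm (c g h)⁻¹, inv_mul_cancel_right]

end cochain

/-- the algebraic statement for a finite group -/
theorem transfer_finite {G X Q : Type} [Group G] [Finite G] [Group X] [Finite X] [Group Q]
    (pr : X →* Q) (hab : ∀ a ∈ pr.ker, ∀ b ∈ pr.ker, a * b = b * a) (d : ℕ) (hd : 0 < d)
    (hexp : ∀ a ∈ pr.ker, a ^ d = 1) (t : G →* Q) (hpr : ∀ g, t g ∈ pr.range)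
    (hl : ∀ ℓ : ℕ, ℓ.Prime → ℓ ∣ d → ∃ (H : Subgroup G) (θ : H →* X),
      ¬ ℓ ∣ H.index ∧ ∀ h : H, pr (θ h) = t h) :
    ∃ θ : G →* X, ∀ g, pr (θ g) = t g := by
  choose a ha using hpr
  let iA : CommGroup pr.ker :=
    { (inferInstance : Group pr.ker) with
      mul_comm := fun x y => Subtype.ext (hab x x.2 y y.2) }
  have hcmem : ∀ g h, a g * a h * (a (g * h))⁻¹ ∈ pr.ker := fun g h => by
    rw [MonoidHom.mem_ker, map_mul, map_mul, map_inv, ha, ha, ha, map_mul, mul_inv_cancel]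
  let c : G → G → pr.ker := fun g h => ⟨_, hcmem g h⟩
  have hcval : ∀ g h, (c g h : X) * a (g * h) = a g * a h := fun g h => by
    change a g * a h * (a (g * h))⁻¹ * a (g * h) = _
    rw [inv_mul_cancel_right]
  let ψ : G → MulAut pr.ker := fun g => MulAut.conjNormal (a g)
  have hψval : ∀ (g : G) (z : pr.ker), ((ψ g z : pr.ker) : X) = a g * z * (a g)⁻¹ :=
    fun g z => rfl
  have hψmul : ∀ g h, ψ (g * h) = ψ g * ψ h := fun g h => by
    apply MulEquiv.ext
    intro z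
    apply Subtype.ext
    rw [MulAut.mul_apply, hψval, hψval, hψval]
    have h1 : a (g * h) = (c g h : X)⁻¹ * (a g * a h) := by
      rw [← hcval, inv_mul_cancel_left]
    have h2 : (a g * a h * z * (a h)⁻¹ * (a g)⁻¹ : X) ∈ pr.ker := by
      rw [MonoidHom.mem_ker, map_mul, map_mul, map_mul, map_mul, MonoidHom.mem_ker.1 z.2,
        mul_one, map_inv, map_inv, mul_inv_cancel_right, mul_inv_cancel]
    have h3 := hab _ h2 _ (c g h).2
    rw [h1]
    calc (c g h : X)⁻¹ * (a g * a h) * z * ((c g h : X)⁻¹ * (a g * a h))⁻¹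
        = (c g h : X)⁻¹ * ((a g * a h * z * (a h)⁻¹ * (a g)⁻¹) * (c g h : X)) := by group
      _ = (c g h : X)⁻¹ * ((c g h : X) * (a g * a h * z * (a h)⁻¹ * (a g)⁻¹)) := by rw [h3]
      _ = a g * (a h * z * (a h)⁻¹) * (a g)⁻¹ := by group
  let φ : G →* MulAut pr.ker := MonoidHom.mk' ψ hψmul
  have hφval : ∀ (g : G) (z : pr.ker), ((φ g z : pr.ker) : X) = a g * z * (a g)⁻¹ :=
    fun g z => rfl
  have hc : ∀ g h l, φ g (c h l) * c g (h * l) = c g h * c (g * h) l := fun g h l => by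
    apply Subtype.ext
    change ((φ g (c h l) : pr.ker) : X) * (c g (h * l) : X) = (c g h : X) * (c (g * h) l : X)
    rw [hφval]
    apply mul_right_cancel (b := a (g * (h * l)))
    rw [mul_assoc _ (c g (h * l) : X), hcval, ← mul_assoc g h l, mul_assoc (c g h : X), hcval,
      ← mul_assoc (c g h : X), hcval, mul_assoc (a g) (a h) (a l), ← hcval h l]
    group
  have hcd : ∀ g h, c g h ^ d = 1 := fun g h => Subtype.ext (hexp _ (c g h).2)
  obtain ⟨b, hb⟩ := tr_comb φ c hc d hcd (by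
    intro ℓ hℓ hℓd
    obtain ⟨H, θ, hi, hθ⟩ := hl ℓ hℓ hℓd
    have hbmem : ∀ h : H, θ h * (a h)⁻¹ ∈ pr.ker := fun h => by
      rw [MonoidHom.mem_ker, map_mul, map_inv, hθ, ha, mul_inv_cancel]
    refine ⟨H, inferInstance, fun h => ⟨_, hbmem h⟩, hi, fun h h' => ?_⟩
    apply Subtype.ext
    change θ h * (a h)⁻¹ * (a h * (θ h' * (a h')⁻¹) * (a h)⁻¹) * (a h * a h' * (a (h * h'))⁻¹) =
      θ (h * h') * (a ((h * h' : H) : G))⁻¹
    rw [map_mul]
    change _ = θ h * θ h' * (a (h * h'))⁻¹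
    group)
  refine ⟨MonoidHom.mk' (fun g => (b g : X) * a g) fun g h => ?_, fun g => ?_⟩
  · rw [← hb g h]
    change (b g : X) * (a g * (b h : X) * (a g)⁻¹) * (c g h : X) * a (g * h) =
      b g * a g * (b h * a h)
    rw [mul_assoc _ (c g h : X), hcval]
    group
  · change pr ((b g : X) * a g) = t g
    rw [map_mul, MonoidHom.mem_ker.1 (b g).2, one_mul, ha]

/-- the statement for a profinite group -/
theorem transfer {G X Q : Type} [Group G] [TopologicalSpace G] [IsTopologicalGroup G]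
    [CompactSpace G] [Group X] [Finite X] [Group Q]
    (pr : X →* Q) (hab : ∀ a ∈ pr.ker, ∀ b ∈ pr.ker, a * b = b * a) (d : ℕ) (hd : 0 < d)
    (hexp : ∀ a ∈ pr.ker, a ^ d = 1) (t : G →* Q) (ht : IsOpen (t.ker : Set G))
    (hpr : ∀ g, t g ∈ pr.range)
    (hl : ∀ ℓ : ℕ, ℓ.Prime → ℓ ∣ d → ∃ (H : Subgroup G) (θ : H →* X),
      ¬ ℓ ∣ H.index ∧ IsOpen (H : Set G) ∧ (∃ N : Subgroup G, IsOpen (N : Set G) ∧
        ∀ h : H, (h : G) ∈ N → θ h = 1) ∧ ∀ h : H, pr (θ h) = t h) :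
    ∃ θ : G →* X, IsOpen (θ.ker : Set G) ∧ ∀ g, pr (θ g) = t g := by
  classical
  -- an open subgroup on which everything is trivial
  have hW : ∀ ℓ : ℕ, ∃ W : Subgroup G, IsOpen (W : Set G) ∧ (ℓ.Prime → ℓ ∣ d →
      ∃ (H : Subgroup G) (θ : H →* X), ¬ ℓ ∣ H.index ∧ W ≤ H ∧
        (∀ h : H, (h : G) ∈ W → θ h = 1) ∧ ∀ h : H, pr (θ h) = t h) := by
    intro ℓ
    by_cases hℓ : ℓ.Prime ∧ ℓ ∣ d
    · obtain ⟨H, θ, hi, hH, ⟨N, hN, hN1⟩, hθ⟩ := hl ℓ hℓ.1 hℓ.2
      refine ⟨H ⊓ N, hH.inter hN, fun _ _ => ⟨H, θ, hi, inf_le_left, fun h hh => ?_, hθ⟩⟩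
      exact hN1 h hh.2
    · exact ⟨⊤, isOpen_univ, fun h1 h2 => absurd ⟨h1, h2⟩ hℓ⟩
  choose W hWo hWp using hW
  let W0 : Subgroup G := t.ker ⊓ ⨅ ℓ ∈ d.primeFactors, W ℓ
  have hW1 : IsOpen ((⨅ ℓ ∈ d.primeFactors, W ℓ : Subgroup G) : Set G) := by
    rw [Subgroup.coe_iInf]
    have h1 : (⋂ ℓ, ((⨅ (_ : ℓ ∈ d.primeFactors), W ℓ : Subgroup G) : Set G)) =
        ⋂ ℓ ∈ d.primeFactors, (W ℓ : Set G) := by
      refine Set.iInter_congr fun ℓ => ?_
      rw [Subgroup.coe_iInf]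
    rw [h1]
    exact isOpen_biInter_finset fun ℓ _ => hWo ℓ
  have hW0 : IsOpen (W0 : Set G) := ht.inter hW1
  have hfin0 : Finite (G ⧸ W0) := Subgroup.quotient_finite_of_isOpen W0 hW0
  have hfi0 : W0.FiniteIndex := W0.finiteIndex_of_finite_quotient
  let N := W0.normalCore
  have hNo : IsOpen (N : Set G) := Subgroup.isOpen_of_isClosed_of_finiteIndex _
    (W0.normalCore_isClosed (W0.isClosed_of_isOpen hW0))
  have hNle : N ≤ W0 := W0.normalCore_le
  have hfin : Finite (G ⧸ N) := Subgroup.finite_quotient_of_finiteIndex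
  have hNt : N ≤ t.ker := hNle.trans inf_le_left
  have hNW : ∀ ℓ : ℕ, ℓ.Prime → ℓ ∣ d → N ≤ W ℓ := fun ℓ h1 h2 =>
    (hNle.trans inf_le_right).trans (iInf₂_le ℓ (Nat.mem_primeFactors.2 ⟨h1, h2, hd.ne'⟩))
  obtain ⟨θ, hθ⟩ := transfer_finite (G := G ⧸ N) pr hab d hd hexp
    (QuotientGroup.lift N t fun x hx => MonoidHom.mem_ker.1 (hNt hx)) (by
      intro q
      obtain ⟨g, rfl⟩ := QuotientGroup.mk_surjective q
      exact hpr g) (by
      intro ℓ h1 h2
      obtain ⟨H, θ, hi, hWH, hθ1, hθ⟩ := hWp ℓ h1 h2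
      have hNH : N ≤ H := (hNW ℓ h1 h2).trans hWH
      let m : H →* H.map (QuotientGroup.mk' N) := (QuotientGroup.mk' N).subgroupMap H
      have hm : Function.Surjective m := (QuotientGroup.mk' N).subgroupMap_surjective H
      have hker : m.ker ≤ θ.ker := by
        intro h hh
        have h3 : QuotientGroup.mk' N (h : G) = 1 := congrArg Subtype.val (MonoidHom.mem_ker.1 hh)
        have h4 : (h : G) ∈ N := (QuotientGroup.eq_one_iff _).1 h3
        exact MonoidHom.mem_ker.2 (hθ1 h (hNW ℓ h1 h2 h4))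
      refine ⟨H.map (QuotientGroup.mk' N), m.liftOfSurjective hm ⟨θ, hker⟩, ?_, ?_⟩
      · rw [Subgroup.index_map_eq H (QuotientGroup.mk'_surjective N)
          (by rw [QuotientGroup.ker_mk']; exact hNH)]
        exact hi
      · intro q
        obtain ⟨h, rfl⟩ := hm q
        rw [MonoidHom.liftOfRightInverse_comp_apply]
        exact hθ h)
  refine ⟨θ.comp (QuotientGroup.mk' N), ?_, fun g => hθ (QuotientGroup.mk' N g)⟩
  refine Subgroup.isOpen_mono (H₁ := N) ?_ hNo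
  intro g hg
  rw [MonoidHom.mem_ker, MonoidHom.comp_apply]
  have h1 : QuotientGroup.mk' N g = 1 := (QuotientGroup.eq_one_iff _).2 hg
  rw [h1, map_one]

end Pool.Agent.SB
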